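import Mathlib

/-!
Generic points of prime ideals over an algebraically closed subfield of the complex numbers.
-/

set_option autoImplicit false

open scoped Cardinal

namespace Run7.h418.U

section iso

variable {k L M : Type} [Field k] [Field L] [Field M] [Algebra k L] [Algebra k M] [IsAlgClosed L]
  [IsAlgClosed M]

/-- algebraically closed fields of the same uncountable cardinality are isomorphic over a countable
subfield -/
theorem exists_iso (hk : #k ≤ ℵ₀) (hL : ℵ₀ < #L) (hLM : #L = #M) :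
    ∃ ψ : L ≃+* M, ∀ c : k, ψ (algebraMap k L c) = algebraMap k M c := by
  obtain ⟨s, hs⟩ := exists_isTranscendenceBasis k L
  obtain ⟨t, ht⟩ := exists_isTranscendenceBasis k M
  have h1 : #L = #s := IsAlgClosed.cardinal_eq_cardinal_transcendence_basis_of_aleph0_lt' _ hs hk hL
  have h2 : #M = #t := IsAlgClosed.cardinal_eq_cardinal_transcendence_basis_of_aleph0_lt' _ ht hk
    (by rw [← hLM]; exact hL)
  obtain ⟨e0⟩ : Nonempty (s ≃ t) := by
    rw [← Cardinal.eq, ← h1, ← h2]
    exact hLM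
  letI := IsAlgClosed.isAlgClosure_of_transcendence_basis _ hs
  letI := IsAlgClosed.isAlgClosure_of_transcendence_basis _ ht
  let e : Algebra.adjoin k (Set.range ((↑) : s → L)) ≃ₐ[k]
      Algebra.adjoin k (Set.range ((↑) : t → M)) :=
    (hs.1.aevalEquiv.symm.trans (MvPolynomial.renameEquiv k e0)).trans ht.1.aevalEquiv
  refine ⟨IsAlgClosure.equivOfEquiv L M e.toRingEquiv, fun c => ?_⟩
  have h3 := IsAlgClosure.equivOfEquiv_algebraMap L M e.toRingEquiv
    (algebraMap k (Algebra.adjoin k (Set.range ((↑) : s → L))) c)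
  rw [← IsScalarTower.algebraMap_apply] at h3
  rw [h3]
  have h4 : e.toRingEquiv (algebraMap k (Algebra.adjoin k (Set.range ((↑) : s → L))) c) =
      algebraMap k _ c := e.commutes c
  rw [h4, ← IsScalarTower.algebraMap_apply]

end iso

/-- a copy of the complex numbers -/
def BC : Type := ℂ

noncomputable instance : Field BC := inferInstanceAs (Field ℂ)

/-- the complex numbers have finite transcendence degree over the image of `φ` -/
def FinTr (φ : ℂ →+* ℂ) : Prop :=
  ∃ N : ℕ, @Algebra.trdeg ℂ BC _ _ (RingHom.toAlgebra (S := BC) φ) = N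

section gen

variable {τ : Type} [Finite τ]

theorem exists_generic (𝔭 : Ideal (MvPolynomial τ ℂ)) [h𝔭 : 𝔭.IsPrime] :
    ∃ (φ : ℂ →+* ℂ) (a : τ → ℂ), (∀ G ∈ 𝔭, MvPolynomial.map φ G ∈ 𝔭) ∧
      (∀ G, MvPolynomial.eval a (MvPolynomial.map φ G) = 0 ↔ G ∈ 𝔭) ∧
      (∀ G ∈ 𝔭, MvPolynomial.eval a G = 0) ∧ FinTr φ := by
  classical
  obtain ⟨T, hT⟩ : 𝔭.FG := IsNoetherian.noetherian 𝔭
  set S : Set ℂ := ⋃ g ∈ T, (MvPolynomial.coeffs g : Set ℂ) with hS
  have hSf : S.Finite := by
    rw [hS]
    exact T.finite_toSet.biUnion fun g _ => (MvPolynomial.coeffs g).finite_toSet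
  set k := Subfield.closure S with hk
  have hkc : #k ≤ ℵ₀ := by
    have h1 := Subfield.cardinalMk_closure_le_max S
    refine h1.trans (max_le ?_ le_rfl)
    exact hSf.countable.le_aleph0
  let Q := MvPolynomial τ ℂ ⧸ 𝔭
  let M := FractionRing Q
  let Ω := AlgebraicClosure M
  let x : τ → Ω := fun i => algebraMap Q Ω (Ideal.Quotient.mk 𝔭 (MvPolynomial.X i))
  have hinj : Function.Injective (algebraMap Q Ω) := by
    rw [IsScalarTower.algebraMap_eq Q M Ω]
    exact (algebraMap M Ω).injective.comp (IsFractionRing.injective Q M)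
  have hx : ∀ G, MvPolynomial.aeval x G = algebraMap Q Ω (Ideal.Quotient.mk 𝔭 G) := by
    intro G
    induction G using MvPolynomial.induction_on with
    | C c =>
      rw [MvPolynomial.aeval_C]
      change algebraMap ℂ Ω c = algebraMap Q Ω (algebraMap ℂ Q c)
      exact IsScalarTower.algebraMap_apply ℂ Q Ω c
    | add p q hp hq => rw [map_add, map_add, map_add, hp, hq]
    | mul_X p i hp => rw [map_mul, map_mul, map_mul, hp, MvPolynomial.aeval_X]
  have hx0 : ∀ G, MvPolynomial.aeval x G = 0 ↔ G ∈ 𝔭 := by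
    intro G
    rw [hx, map_eq_zero_iff _ hinj, Ideal.Quotient.eq_zero_iff_mem]
  -- cardinalities
  have hC : #ℂ = 𝔠 := Cardinal.mk_complex
  have hΩ : #Ω = 𝔠 := by
    apply le_antisymm
    · refine (Algebra.IsAlgebraic.cardinalMk_le_max M Ω).trans (max_le ?_ Cardinal.aleph0_le_continuum)
      rw [IsFractionRing.cardinalMk (R := Q) M]
      refine (Cardinal.mk_quotient_le).trans ?_
      refine MvPolynomial.cardinalMk_le_max.trans ?_
      refine max_le (max_le hC.le ?_) Cardinal.aleph0_le_continuum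
      exact (Cardinal.lt_aleph0_of_finite τ).le.trans Cardinal.aleph0_le_continuum
    · rw [← hC]
      exact Cardinal.mk_le_of_injective (algebraMap ℂ Ω).injective
  obtain ⟨ψ, hψ⟩ := exists_iso (k := k) (L := Ω) (M := ℂ) hkc (by
    rw [hΩ]
    exact Cardinal.aleph0_lt_continuum) (by rw [hΩ, hC])
  set φ : ℂ →+* ℂ := (ψ : Ω →+* ℂ).comp (algebraMap ℂ Ω) with hφ
  set a : τ → ℂ := fun i => ψ (x i) with ha
  have hφk : ∀ c ∈ k, φ c = c := by
    intro c hc
    have h1 := hψ ⟨c, hc⟩
    rw [IsScalarTower.algebraMap_apply k ℂ Ω] at h1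
    exact h1
  have hev : ∀ G, MvPolynomial.eval a (MvPolynomial.map φ G) = ψ (MvPolynomial.aeval x G) := by
    intro G
    rw [MvPolynomial.eval_map]
    induction G using MvPolynomial.induction_on with
    | C c =>
      rw [MvPolynomial.eval₂_C, MvPolynomial.aeval_C]
      rfl
    | add p q hp hq => rw [MvPolynomial.eval₂_add, map_add, map_add, hp, hq]
    | mul_X p i hp =>
      rw [MvPolynomial.eval₂_mul, MvPolynomial.eval₂_X, map_mul, map_mul, hp,
        MvPolynomial.aeval_X]
  have h2 : ∀ G, MvPolynomial.eval a (MvPolynomial.map φ G) = 0 ↔ G ∈ 𝔭 := by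
    intro G
    rw [hev, map_eq_zero_iff _ ψ.injective, hx0]
  have hfix : ∀ g ∈ T, MvPolynomial.map φ g = g := by
    intro g hg
    ext s
    rw [MvPolynomial.coeff_map]
    apply hφk
    by_cases h0 : MvPolynomial.coeff s g = 0
    · rw [h0]
      exact zero_mem _
    · apply Subfield.subset_closure
      rw [hS]
      simp only [Set.mem_iUnion]
      refine ⟨g, hg, ?_⟩
      rw [Finset.mem_coe, MvPolynomial.mem_coeffs_iff]
      exact ⟨s, MvPolynomial.mem_support_iff.2 h0, rfl⟩
  have hTp : ∀ g ∈ T, g ∈ 𝔭 := fun g hg => by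
    rw [← hT]
    exact Ideal.subset_span hg
  refine ⟨φ, a, fun G hG => ?_, h2, fun G hG => ?_, ?_⟩
  · have h1 : 𝔭 ≤ 𝔭.comap (MvPolynomial.map φ) := by
      conv_lhs => rw [← hT]
      change Ideal.span _ ≤ _
      rw [Ideal.span_le]
      intro g hg
      rw [SetLike.mem_coe, Ideal.mem_comap, hfix g hg]
      exact hTp g hg
    exact h1 hG
  · have h1 : 𝔭 ≤ RingHom.ker (MvPolynomial.eval a) := by
      conv_lhs => rw [← hT]
      change Ideal.span _ ≤ _
      rw [Ideal.span_le]
      intro g hg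
      rw [SetLike.mem_coe, RingHom.mem_ker, ← hfix g hg]
      exact (h2 g).2 (hTp g hg)
    exact h1 hG
  · letI : Algebra ℂ BC := RingHom.toAlgebra (S := BC) φ
    have e : Ω ≃ₐ[ℂ] BC := AlgEquiv.ofRingEquiv (f := (ψ : Ω ≃+* BC)) fun c => rfl
    have h3 : Algebra.trdeg ℂ Ω < ℵ₀ := by
      have h4 : Algebra.trdeg ℂ Q < ℵ₀ := trdeg_lt_aleph0_of_finiteType
      have hfs : FaithfulSMul Q Ω := (faithfulSMul_iff_algebraMap_injective Q Ω).2 hinj
      have h5 := trdeg_add_eq ℂ Q (A := Ω)
      have h6 : Algebra.IsAlgebraic Q Ω :=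
        (IsFractionRing.comap_isAlgebraic_iff (A := Q) (K := M) (C := Ω)).2 inferInstance
      rw [trdeg_eq_zero_iff.2 h6, add_zero] at h5
      rw [← h5]
      exact h4
    rw [e.trdeg_eq] at h3
    obtain ⟨N, hN⟩ := Cardinal.lt_aleph0.1 h3
    exact ⟨N, hN⟩

end gen

end Run7.h418.U
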