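import Pool.Agent.Run7.h418.U.Reg

/-!
Easy addition: if the varieties with function field `R` over `Λ` cover a variety of general type,
then they are of general type.
-/

set_option autoImplicit false
set_option linter.overlappingInstances false
set_option linter.unusedSectionVars false
set_option maxHeartbeats 4000000
set_option synthInstance.maxHeartbeats 400000

open FF

namespace Run7.h418.U

open Pool.Agent.W603.LV Pool.Agent.W619.PQ
open Pool.Agent.W602.GT (Divisorial RegAt IsPluri DerReg GeneralType)

section alg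

variable {K Λ R : Type} [Field K] [Field Λ] [Field R] [Algebra ℂ K] [Algebra ℂ Λ] [Algebra ℂ R]
  [Algebra Λ R] [Algebra K R] [IsScalarTower ℂ Λ R] [IsScalarTower ℂ K R]

open scoped IntermediateField.algebraAdjoinAdjoin in
/-- a transcendence basis of the big field among functions of the small field -/
theorem exists_sub (hgen : IntermediateField.adjoin Λ (Set.range (algebraMap K R)) = ⊤)
    {w e : ℕ} {g : Fin w → K} (hg : IsTranscendenceBasis ℂ g) (he : Algebra.trdeg Λ R = e) :
    ∃ I : Fin e → Fin w, AlgebraicIndependent Λ fun i => algebraMap K R (g (I i)) := by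
  classical
  set S : Set R := Set.range fun i => algebraMap K R (g i) with hS
  set L := IntermediateField.adjoin Λ S with hL
  have halg1 := hg.isAlgebraic_field
  have hK : ∀ f : K, IsAlgebraic L (algebraMap K R f) := by
    intro f
    have h1 := halg1.isAlgebraic f
    have h2 : IsAlgebraic (IntermediateField.adjoin ℂ (Set.range g)) (algebraMap K R f) :=
      h1.algebraMap
    let φ : IntermediateField.adjoin ℂ (Set.range g) →+* L :=
      { toFun := fun y => ⟨algebraMap K R y, by
          have hle : IntermediateField.adjoin ℂ (Set.range g) ≤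
              (L.restrictScalars ℂ).comap (IsScalarTower.toAlgHom ℂ K R) := by
            rw [IntermediateField.adjoin_le_iff]
            rintro _ ⟨i, rfl⟩
            exact IntermediateField.subset_adjoin Λ S ⟨i, rfl⟩
          exact hle y.2⟩
        map_one' := Subtype.ext (map_one _)
        map_mul' := fun _ _ => Subtype.ext (map_mul (algebraMap K R) _ _)
        map_zero' := Subtype.ext (map_zero _)
        map_add' := fun _ _ => Subtype.ext (map_add (algebraMap K R) _ _) }
    obtain ⟨p, hp0, hp⟩ := h2
    refine ⟨p.map φ, ?_, ?_⟩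
    · rw [Ne, Polynomial.map_eq_zero_iff φ.injective]
      exact hp0
    · rw [Polynomial.aeval_def, Polynomial.eval₂_map]
      rw [Polynomial.aeval_def] at hp
      exact hp
  have halg2 : Algebra.IsAlgebraic L R := by
    constructor
    intro f
    let C : IntermediateField Λ R := (algebraicClosure L R).restrictScalars Λ
    have h1 : IntermediateField.adjoin Λ (Set.range (algebraMap K R)) ≤ C := by
      rw [IntermediateField.adjoin_le_iff]
      rintro _ ⟨f, rfl⟩
      exact mem_algebraicClosure_iff.2 (hK f)
    rw [hgen] at h1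
    exact mem_algebraicClosure_iff.1 (h1 (show f ∈ (⊤ : IntermediateField Λ R) from trivial))
  have halg3 : Algebra.IsAlgebraic (Algebra.adjoin Λ S) R := by
    change Algebra.IsAlgebraic (IntermediateField.adjoin Λ S) R at halg2
    exact (IsFractionRing.comap_isAlgebraic_iff (A := Algebra.adjoin Λ S)
      (K := IntermediateField.adjoin Λ S) (C := R)).2 halg2
  obtain ⟨t, hts, ht⟩ := exists_isTranscendenceBasis_subset (R := Λ) S
  have h1 := ht.cardinalMk_eq_trdeg
  rw [he] at h1
  obtain ⟨φ⟩ : Nonempty (Fin e ≃ t) := by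
    rw [← Cardinal.eq, Cardinal.mk_fin]
    exact h1.symm
  choose I hI using fun i : Fin e => hts (φ i).2
  refine ⟨I, ?_⟩
  have h2 : (fun i => algebraMap K R (g (I i))) = fun i => ((φ i : t) : R) := funext fun i => hI i
  rw [h2]
  exact ht.1.comp φ φ.injective

end alg

section main

variable {K Λ R : Type} [Field K] [Field Λ] [Field R] [Algebra ℂ K] [Algebra ℂ Λ] [Algebra ℂ R]
  [Algebra Λ R] [Algebra K R] [IsScalarTower ℂ Λ R] [IsScalarTower ℂ K R]

/-- **Easy addition.** -/
theorem gt_up [Algebra.EssFiniteType ℂ K] [Algebra.EssFiniteType Λ R] {w N m : ℕ}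
    (hgt : GeneralType ℂ K w) (hN : Algebra.trdeg ℂ Λ = N)
    (he : Algebra.trdeg Λ R = (m + 1 : ℕ))
    (hgen : IntermediateField.adjoin Λ (Set.range (algebraMap K R)) = ⊤) :
    GeneralType Λ R (m + 1) := by
  classical
  have hch : CharZero Λ := charZero_of_injective_algebraMap (algebraMap ℂ Λ).injective
  obtain ⟨hw, M, hM, ω, hpl, hreg, D, hD0, hind⟩ := hgt
  obtain ⟨z, hz⟩ := Pool.Agent.W602.GT.basis_of_trdeg hw
  have hE : ∀ i : Fin w, ∃ D : Derivation ℂ K K, ∀ j, D (z j) = if i = j then 1 else 0 :=
    fun i => Pool.Agent.W602.GT.exists_der z hz fun j => if i = j then 1 else 0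
  choose E hE using hE
  -- the ratios
  have hωD : ∀ j, ω j D = (Matrix.of fun i l => D i (z l)).det ^ M * ω j E := by
    intro j
    have h1 := hpl j (Matrix.of fun i l => D i (z l)) E
    rw [← h1]
    congr 1
    funext i
    exact (expand' hz hE (D i)).symm
  have hdet : (Matrix.of fun i l => D i (z l)).det ^ M ≠ 0 := by
    intro h
    apply hD0
    rw [hωD, h, zero_mul]
  have hE0 : ω 0 E ≠ 0 := by
    intro h
    apply hD0
    rw [hωD, h, mul_zero]
  set g : Fin w → K := fun i => ω i.succ E / ω 0 E with hg
  have hgD : (fun i : Fin w => ω i.succ D / ω 0 D) = g := by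
    funext i
    rw [hωD, hωD, mul_div_mul_left _ _ hdet]
  rw [hgD] at hind
  have hgb : IsTranscendenceBasis ℂ g := by
    apply hind.isTranscendenceBasis_of_trdeg_le_of_finite
    rw [hw]
    simp
  obtain ⟨J, hJ⟩ := exists_sub hgen hgb he
  have hme : m + 1 ≤ w := by
    have h1 : Function.Injective J := by
      intro i j hij
      have h2 := hJ.injective
      have h3 : (fun i => algebraMap K R (g (J i))) i = (fun i => algebraMap K R (g (J i))) j := by
        simp only [hij]
      exact h2 h3
    have h2 := Fintype.card_le_of_injective J h1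
    rwa [Fintype.card_fin, Fintype.card_fin] at h2
  obtain ⟨r, hr⟩ : ∃ r, r + (m + 1) = w := ⟨w - (m + 1), by omega⟩
  -- the frames
  obtain ⟨b, hb⟩ := Pool.Agent.W602.GT.basis_of_trdeg hN
  have hB : ∀ i : Fin N, ∃ D : Derivation ℂ Λ Λ, ∀ j, D (b j) = if i = j then 1 else 0 :=
    fun i => Pool.Agent.W602.GT.exists_der b hb fun j => if i = j then 1 else 0
  choose B hB using hB
  obtain ⟨x, hx⟩ := Pool.Agent.W602.GT.basis_of_trdeg he
  have hδ : ∀ i : Fin (m + 1), ∃ D : Derivation Λ R R, ∀ j, D (x j) = if i = j then 1 else 0 :=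
    fun i => Pool.Agent.W602.GT.exists_der x hx fun j => if i = j then 1 else 0
  choose δ hδ using hδ
  choose T hT1 hT2 using fun i : Fin N => ext_der hb hB hx i
  obtain ⟨I, hI⟩ := exists_rows (r := r) hgen hr hz hb hx (T := T) (fun i j => by
    rw [hT1, hB]
    split_ifs
    · exact map_one _
    · exact map_zero _) hT2 hδ
  set eqv : Fin r ⊕ Fin (m + 1) ≃ Fin w := finSumFinEquiv.trans (finCongr hr) with heqv
  have hdet0 : (vm (z ∘ eqv) (rws (T ∘ I) δ)).det ≠ 0 := by
    have h1 : LinearIndependent R (vm (z ∘ eqv) (rws (T ∘ I) δ)).row := by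
      have h2 : (vm (z ∘ eqv) (rws (T ∘ I) δ)).row = fun a =>
          (LinearEquiv.funCongrLeft R R eqv) ((Sum.elim
            ((fun (i : Fin N) (l : Fin w) => T i (algebraMap K R (z l))) ∘ I)
            fun (i : Fin (m + 1)) (l : Fin w) => δ i (algebraMap K R (z l))) a) := by
        funext a l
        rcases a with a | a <;> rfl
      rw [h2]
      exact hI.map' (LinearEquiv.funCongrLeft R R eqv).toLinearMap (LinearEquiv.ker _)
    have h3 := (Matrix.linearIndependent_rows_iff_isUnit.1 h1)
    rw [Matrix.isUnit_iff_isUnit_det] at h3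
    exact h3.ne_zero
  set θ : (Fin (m + 1 + 1)) → (Fin (m + 1) → Derivation Λ R R) → R := fun j δ' =>
    (vm (z ∘ eqv) (rws (T ∘ I) δ')).det ^ M *
      algebraMap K R (ω (Fin.cases 0 (fun i => (J i).succ) j) E) with hθ
  refine ⟨he, M, hM, θ, fun j A δ' => ?_, fun Q hQ j δ' hδ' => ?_, δ, ?_, ?_⟩
  · rw [hθ]
    simp only
    rw [vm_rws (T := T ∘ I) (δ := δ') (A := 0) (B := A) (fun i f => by simp) (fun i f => by
      rw [sum_app]
      rfl), mul_pow, mul_assoc]
  · exact reg_up hw hN he hz hE (hpl _) (fun P hP => hreg P hP _) hb hB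
      (I := I) (fun i c => hT1 (I i) c) eqv Q hQ hδ'
  · rw [hθ]
    simp only
    refine mul_ne_zero (pow_ne_zero _ hdet0) ?_
    rw [Ne, map_eq_zero_iff _ (algebraMap K R).injective]
    exact hE0
  · have h1 : (fun i : Fin (m + 1) => θ i.succ δ / θ 0 δ) =
        fun i => algebraMap K R (g (J i)) := by
      funext i
      rw [hθ, hg]
      simp only [Fin.cases_succ, Fin.cases_zero]
      rw [mul_div_mul_left _ _ (pow_ne_zero _ hdet0), map_div₀]
    rw [h1]
    exact hJ

end main

end Run7.h418.U
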