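import Pool.Agent.Run7.h418.U.Den
import Pool.Agent.Run7.h418.U.Iso
import Pool.Agent.Run7.h418.U.Up
import Pool.Agent.Run7.h418.R.SpEq

/-!
The entire curves of bounded derivative in a subvariety of general type lie in a proper closed
subset.
-/

set_option autoImplicit false

open MvPolynomial Metric Set Filter Topology LinearAlgebra.Projectivization

namespace Run7.h418.U

open Pool.Agent.Y190.OP Pool.Agent.W602.GT Pool.Agent.N155

section up

/-- a copy of a field -/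
def CP (R : Type) : Type := R

noncomputable instance {R : Type} [h : Field R] : Field (CP R) := h

/-- easy addition, for an embedding which is linear over an endomorphism of the complex numbers -/
theorem gt_up_hom {K R : Type} [Field K] [Field R] [hKa : Algebra ℂ K] [hRa : Algebra ℂ R]
    (hK : Algebra.EssFiniteType ℂ K) (hR : Algebra.EssFiniteType ℂ R) {φ : ℂ →+* ℂ} (hφ : FinTr φ)
    {ι : K →+* R} (hι : ∀ c, ι (algebraMap ℂ K c) = algebraMap ℂ R (φ c))
    (hgen : IntermediateField.adjoin ℂ (Set.range ι) = ⊤) {w m : ℕ}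
    (hgt : GeneralType ℂ K w) (he : Algebra.trdeg ℂ R = (m + 1 : ℕ)) :
    GeneralType ℂ R (m + 1) := by
  obtain ⟨N, hN⟩ := hφ
  letI a1 : Algebra ℂ BC := RingHom.toAlgebra (S := BC) φ
  letI a2 : Algebra BC (CP R) := hRa
  letI a3 : Algebra ℂ (CP R) := ((algebraMap BC (CP R)).comp (algebraMap ℂ BC)).toAlgebra
  letI a4 : Algebra K (CP R) := RingHom.toAlgebra (S := CP R) ι
  haveI s1 : IsScalarTower ℂ BC (CP R) := IsScalarTower.of_algebraMap_eq fun c => rfl
  haveI s2 : IsScalarTower ℂ K (CP R) := IsScalarTower.of_algebraMap_eq fun c => (hι c).symm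
  haveI e1 : Algebra.EssFiniteType BC (CP R) := hR
  exact gt_up (K := K) (Λ := BC) (R := CP R) (N := N) hgt hN he hgen

end up

section main

variable {n : ℕ} {ι ι' κ : Type} {F : ι → MvPolynomial (Fin (n + 1)) ℂ}
  {F' : ι' → MvPolynomial (Fin (n + 1)) ℂ}
  {σ : κ → (Fin (n + 1) → ℂ) → (Fin (n + 1) → ℂ) → ℂ} {m : κ → ℕ}

theorem immersive_mono (h : ∀ i, ∃ i', F' i' = F i) (him : Immersive F σ) : Immersive F' σ :=
  fun x hx v w hv hw hv0 hw0 =>
    him x (R.cone_mono h hx) v w (R.tan_mono h hv) (R.tan_mono h hw) hv0 hw0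

/-- the case of a normalised generic point -/
theorem uniform_aux [Finite κ] {K : Type} [Field K] [Algebra ℂ K] {w : ℕ}
    {y : Fin (n + 1) → K} {i0 : Fin (n + 1)} (hi0 : y i0 = 1) (hcy : coords ℂ y = ⊤)
    (hm : ∀ j, 0 < m j) (hσ : ∀ j, SymForm (vf y) (m j) (σ j)) (him : Immersive (vf y) σ)
    (hgt : GeneralType ℂ K w)
    (hcon : ∀ G : MvPolynomial (Fin (n + 1)) ℂ, IsForm G → val y G ≠ 0 →
      ∃ p : ℂ → ℙ ℂ (Fin (n + 1) → ℂ), HolMap p ∧ BoundedDer p ∧
        (∀ z, (p z).rep ∈ VarPts ℂ y) ∧ (∃ z w, p z ≠ p w) ∧ ∃ z, eval (p z).rep G ≠ 0) :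
    False := by
  obtain ⟨j0, hj0⟩ := exists_class hσ hm him hi0 hcon
  obtain ⟨𝔭, h𝔭, hle, hmem⟩ := exists_prime hi0 hj0
  obtain ⟨φ, a, h1, h2, h3, hfin⟩ := exists_generic 𝔭
  obtain ⟨c, Φ, hc, hΦ, hd, hpr⟩ := ra_curve (vf_form y) hσ hm him (a := a) (i := i0) (j0 := j0)
    fun G hG => h3 G (hle hG)
  obtain ⟨p, hp, hpb, hpC, hpΦ⟩ := R.exists_proj (vf_form y) hσ hm him hΦ
  have haE : a ∈ Ep (vf y) σ c i0 := by
    rw [← hpr]
    exact hΦ.2 0 (mem_univ 0) i0 hd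
  have hne : ∃ z w, p z ≠ p w := by
    by_contra hcon
    push Not at hcon
    have h4 : ∀ w, Φ w = Φ 0 := fun w => by rw [← hpΦ, ← hpΦ, hcon w 0]
    have h5 : a ∘ Sum.inr = 0 := by
      funext k
      rw [← hpr]
      change pr i0 Φ 0 (Sum.inr k) = 0
      have h6 : (fun w => chart i0 (Φ w)) = fun _ => chart i0 (Φ 0) := funext fun w => by rw [h4]
      rw [pr_inr, h6, deriv_const]
      rfl
    have h6 := haE.2 j0
    unfold sg at h6
    rw [h5, hc] at h6
    have h7 := (hσ j0).deg _ (Tg.cone haE.1) 0 (by intro j; simp) 0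
    rw [smul_zero, zero_pow (hm j0).ne', zero_mul] at h7
    rw [h7] at h6
    exact zero_ne_one h6
  obtain ⟨e, he0, -, ⟨Kf, i1, i2, yf, hcl⟩, hng⟩ :=
    Z.thm_torus (vf_form y) hm hσ him hp hpC hpb hne
  obtain ⟨-, hng'⟩ := hng Kf e yf hcl
  apply hng'
  obtain ⟨m', rfl⟩ : ∃ m', e = m' + 1 := ⟨e - 1, by omega⟩
  -- the point
  have hx0 : (p 0).rep i0 ≠ 0 := by
    have h4 := hd
    rw [← hpΦ, Phi_diag_ne (p 0).rep_nonzero] at h4
    exact h4
  have hax : a ∘ Sum.inl = ((p 0).rep i0)⁻¹ • (p 0).rep := by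
    rw [← hpr]
    funext k
    change chart i0 (Φ 0) k = _
    rw [← hpΦ, chart_Phi (p 0).rep_nonzero hx0]
  have hai : (a ∘ Sum.inl) i0 = 1 := by
    rw [hax, Pi.smul_apply, smul_eq_mul, inv_mul_cancel₀ hx0]
  have hyf0 : yf i0 ≠ 0 := by
    intro h4
    have h5 := (hcl.2 (X i0) ⟨1, isHomogeneous_X _ _⟩).1 (by
      change aeval yf (X i0) = 0
      rw [aeval_X]
      exact h4) 0
    rw [eval_X] at h5
    exact hx0 h5
  have hinv : (yf i0)⁻¹ ≠ 0 := inv_ne_zero hyf0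
  set yf1 : Fin (n + 1) → Kf := fun k => (yf i0)⁻¹ * yf k with hyf1
  have hyf1i : yf1 i0 = 1 := inv_mul_cancel₀ hyf0
  have hcyf : coords ℂ yf1 = ⊤ := (R.coords_smul hinv).trans hcl.1.gen
  -- the kernels
  have hren : ∀ G : MvPolynomial (Fin (n + 1)) ℂ,
      map φ (rename (Sum.inl : Fin (n + 1) → Fin (n + 1) ⊕ Fin (n + 1)) G) =
        rename Sum.inl (map φ G) := fun G => map_rename φ Sum.inl G
  have hvan : ∀ G : MvPolynomial (Fin (n + 1)) ℂ,
      aeval yf1 G = 0 ↔ Z.Van p (hmg i0 G) := by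
    intro G
    rw [← aeval_hmg hyf1i, ← hcl.2 _ (isForm_hmg i0 G), ← R.val_smul_iff hinv (isForm_hmg i0 G)]
    rfl
  have hker : ∀ G : MvPolynomial (Fin (n + 1)) ℂ, aeval y G = 0 ↔ aeval yf1 (map φ G) = 0 := by
    intro G
    rw [hvan]
    constructor
    · intro hG z
      have h4 := h1 _ ((hmem G).2 hG)
      rw [hren, hmem] at h4
      exact (mem_cone.1 (hpC z)).2 ⟨hmg i0 (map φ G), isForm_hmg _ _, (aeval_hmg hi0 _).trans h4⟩
    · intro hG
      rw [← hmem, ← h2, hren, eval_inl, ← eval_hmg hai, hax]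
      obtain ⟨d, hd'⟩ := isForm_hmg i0 (map φ G)
      rw [eval_hom hd', hG 0, mul_zero]
  obtain ⟨θ, hθ⟩ := exists_hom (aeval y : MvPolynomial (Fin (n + 1)) ℂ →ₐ[ℂ] K).toRingHom
    ((aeval yf1 : MvPolynomial (Fin (n + 1)) ℂ →ₐ[ℂ] Kf).toRingHom.comp (map φ)) hker
    (frac_of_coords hcy)
  have hθy : ∀ k, θ (y k) = yf1 k := by
    intro k
    have h4 := hθ (X k)
    change θ (aeval y (X k)) = aeval yf1 (map φ (X k)) at h4
    rwa [map_X, aeval_X, aeval_X] at h4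
  refine gt_up_hom (ess_of_coords hcy) (ess_of_coords hcl.1.gen) hfin (ι := θ) (fun c => ?_) ?_
    hgt hcl.1.dim
  · have h4 := hθ (C c)
    change θ (aeval y (C c)) = aeval yf1 (map φ (C c)) at h4
    rwa [map_C, aeval_C, aeval_C] at h4
  · rw [eq_top_iff, ← hcyf]
    unfold coords
    rw [IntermediateField.adjoin_le_iff]
    rintro _ ⟨i, j, -, rfl⟩
    rw [← hθy i, ← hθy j]
    exact div_mem (IntermediateField.subset_adjoin _ _ ⟨y i, rfl⟩)
      (IntermediateField.subset_adjoin _ _ ⟨y j, rfl⟩)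

/-- **Entire curves of bounded derivative in varieties of general type.** -/
theorem uniform [Finite κ] (hF : ∀ i, IsForm (F i)) (hm : ∀ j, 0 < m j)
    (hσ : ∀ j, SymForm F (m j) (σ j)) (him : Immersive F σ) {K : Type} [Field K] [Algebra ℂ K]
    {w : ℕ} {y : Fin (n + 1) → K} (hy : SubVar F K w y) (hgt : GeneralType ℂ K w) :
    PseudoBounded y := by
  by_contra hcon
  obtain ⟨i0, hi0⟩ := Function.ne_iff.1 hy.ne
  rw [Pi.zero_apply] at hi0
  have hinv : (y i0)⁻¹ ≠ 0 := inv_ne_zero hi0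
  set y1 : Fin (n + 1) → K := fun k => (y i0)⁻¹ * y k with hy1
  have hy1i : y1 i0 = 1 := inv_mul_cancel₀ hi0
  have hcy : coords ℂ y1 = ⊤ := (R.coords_smul hinv).trans hy.gen
  have hsub : ∀ i, ∃ i', vf y1 i' = F i := fun i =>
    ⟨⟨F i, hF i, (R.val_smul_iff hinv (hF i)).2 (hy.mem i)⟩, rfl⟩
  have hpts : ∀ x, x ∈ VarPts ℂ y1 ↔ x ∈ VarPts ℂ y := by
    intro x
    refine and_congr_right fun _ => forall_congr' fun G => forall_congr' fun hG => ?_
    rw [R.val_smul_iff hinv hG]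
  refine uniform_aux hy1i hcy hm (fun j => R.symForm_mono hsub (hσ j))
    (immersive_mono hsub him) hgt fun G hG hG0 => ?_
  by_contra h1
  push Not at h1
  refine hcon ⟨G, hG, fun h => hG0 ((R.val_smul_iff hinv hG).2 h), fun p hp hpb hpV hne z => ?_⟩
  exact h1 p hp hpb (fun z => (hpts _).2 (hpV z)) hne z

end main

end Run7.h418.U
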