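import Pool.Agent.Run7.h418.U.Main

/-!
The special set of a variety whose symmetric differentials generate a symmetric power of the
cotangent sheaf.
-/

set_option autoImplicit false

open MvPolynomial Metric Set Filter Topology LinearAlgebra.Projectivization

namespace Run7.h418.U

open Pool.Agent.Y190.OP Pool.Agent.W602.GT Pool.Agent.N155 Pool.Agent.TH182.TC

section fin

variable {n : ℕ} {ι κ : Type} {F : ι → MvPolynomial (Fin (n + 1)) ℂ} {m : ℕ}
  {σ : κ → (Fin (n + 1) → ℂ) → (Fin (n + 1) → ℂ) → ℂ} {K : Type} [Field K] [Algebra ℂ K]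
  {w : ℕ} {y : Fin (n + 1) → K}

/-- a form which does not vanish at the generic point does not vanish at some point -/
theorem exists_pt (hy0 : y ≠ 0) {G : MvPolynomial (Fin (n + 1)) ℂ} (hG : IsForm G)
    (hG0 : val y G ≠ 0) : ∃ x ∈ VarPts ℂ y, eval x G ≠ 0 := by
  obtain ⟨i0, hi0⟩ := Function.ne_iff.1 hy0
  rw [Pi.zero_apply] at hi0
  have hinv : (y i0)⁻¹ ≠ 0 := inv_ne_zero hi0
  set y1 : Fin (n + 1) → K := fun k => (y i0)⁻¹ * y k with hy1
  have hy1i : y1 i0 = 1 := inv_mul_cancel₀ hi0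
  have hG1 : aeval y1 G ≠ 0 := fun h => hG0 ((R.val_smul_iff hinv hG).1 h)
  set 𝔭 : Ideal (MvPolynomial (Fin (n + 1)) ℂ) :=
    RingHom.ker (aeval y1 : MvPolynomial (Fin (n + 1)) ℂ →ₐ[ℂ] K) with h𝔭
  have hpr : 𝔭.IsPrime := RingHom.ker_isPrime _
  obtain ⟨φ, a, -, h2, h3, -⟩ := exists_generic 𝔭
  by_contra hcon
  push Not at hcon
  -- all points of the zero set are zeros of `G`
  have h4 : G ∈ MvPolynomial.vanishingIdeal ℂ (MvPolynomial.zeroLocus ℂ 𝔭) := by
    rw [MvPolynomial.mem_vanishingIdeal_iff]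
    intro b hb
    have hb' : ∀ Q ∈ 𝔭, eval b Q = 0 := fun Q hQ => by
      have := hb Q hQ
      rwa [(show (aeval b : MvPolynomial (Fin (n + 1)) ℂ →ₐ[ℂ] ℂ) Q = eval b Q from rfl)] at this
    have hbi : b i0 = 1 := by
      have h5 := hb' (X i0 - 1) (by
        rw [h𝔭, RingHom.mem_ker, map_sub, aeval_X, map_one, hy1i, sub_self])
      rwa [map_sub, eval_X, map_one, sub_eq_zero] at h5
    have hbV : b ∈ VarPts ℂ y := by
      refine ⟨fun h => ?_, fun Q hQ hQ0 => ?_⟩
      · rw [h] at hbi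
        exact zero_ne_one hbi
      · rw [val_ev]
        exact hb' Q ((R.val_smul_iff hinv hQ).2 hQ0)
    exact hcon b hbV
  rw [MvPolynomial.vanishingIdeal_zeroLocus_eq_radical, hpr.radical] at h4
  exact hG1 h4

theorem spTor_ne (hy : SubVar F K w y) (hF : ∀ i, IsForm (F i)) (hirr : Cone F ⊆ VarPts ℂ y) :
    SpTor F ≠ Cone F ↔ PseudoTorus y := by
  constructor
  · intro h
    obtain ⟨x, hx, hx'⟩ : ∃ x ∈ Cone F, x ∉ SpTor F := by
      by_contra hcon
      push Not at hcon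
      exact h (Subset.antisymm (fun x hx => hx.1) hcon)
    have h1 : ∃ G : MvPolynomial (Fin (n + 1)) ℂ, IsForm G ∧
        (∀ (q : ℕ) (b : Module.Basis (Fin (2 * q)) ℝ (Fin q → ℂ)) (g : (Fin q → ℂ) → PS n),
          Holo g → (∀ t, OnX F (g t)) → (∀ t i, g (t + b i) = g t) → (∃ t t', g t ≠ g t') →
            ∀ t, eval (g t).rep G = 0) ∧ val x G ≠ 0 := by
      by_contra hcon
      push Not at hcon
      exact hx' ⟨hx, hcon⟩
    obtain ⟨G, hG, hGT, hG0⟩ := h1
    refine ⟨G, hG, fun h0 => hG0 ((hirr hx).2 G hG h0), fun q b g hg hX hper hne t => ?_⟩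
    refine hGT q b g hg (fun t i => ?_) hper hne t
    rw [← val_ev]
    exact (hX t).2 (F i) (hF i) (hy.mem i)
  · rintro ⟨G, hG, hG0, h1⟩ heq
    obtain ⟨x, hx, hxG⟩ := exists_pt hy.ne hG hG0
    have hxC : x ∈ Cone F := ⟨hx.1, fun i => hx.2 (F i) (hF i) (hy.mem i)⟩
    rw [← heq] at hxC
    apply hxG
    rw [← val_ev]
    exact hxC.2 G hG fun q b g hg hX hper hne t => h1 q b g hg (fun t =>
      hirr (mem_cone.2 ⟨(g t).rep_nonzero, hX t⟩)) hper hne t

variable [Fintype κ]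

theorem general_iff_bounded (hF : ∀ i, IsForm (F i)) (hm : 0 < m) (hσ : ∀ j, SymForm F m (σ j))
    (hgen : Generates F m σ) (hw : 0 < w) (hy : SubVar F K w y) :
    GeneralType ℂ K w ↔ PseudoBounded y :=
  ⟨fun h => uniform hF (fun _ => hm) hσ (R.immersive_of_generates hm hσ hgen) hy h, fun h =>
    R.general_of_pseudoTorus hF hm hσ hgen hw hy (R.pseudoTorus_of_bounded h)⟩

theorem general_iff_torus (hF : ∀ i, IsForm (F i)) (hm : 0 < m) (hσ : ∀ j, SymForm F m (σ j))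
    (hgen : Generates F m σ) (hw : 0 < w) (hy : SubVar F K w y) :
    GeneralType ℂ K w ↔ PseudoTorus y :=
  ⟨fun h => R.pseudoTorus_of_bounded ((general_iff_bounded hF hm hσ hgen hw hy).1 h), fun h =>
    R.general_of_pseudoTorus hF hm hσ hgen hw hy h⟩

end fin

end Run7.h418.U
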