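import Pool.Agent.Run7.h418.U.Vec

/-!
The jets of all entire curves on which the symmetric differentials are constant and one of them is
one form an algebraic set.
-/

set_option autoImplicit false

open MvPolynomial Metric Set Filter Topology

namespace Run7.h418.U

open Pool.Agent.Y190.OP Pool.Agent.W602.GT Pool.Agent.N155

section cls

variable {n : ℕ} {ι κ : Type} {F : ι → MvPolynomial (Fin (n + 1)) ℂ}
  {σ : κ → (Fin (n + 1) → ℂ) → (Fin (n + 1) → ℂ) → ℂ} {m : κ → ℕ} {j0 : κ}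

/-- the polynomials which vanish on the jets of all curves of the class -/
def RA (F : ι → MvPolynomial (Fin (n + 1)) ℂ)
    (σ : κ → (Fin (n + 1) → ℂ) → (Fin (n + 1) → ℂ) → ℂ) (j0 : κ) (i : Fin (n + 1)) :
    Ideal (Rn (n + 1)) where
  carrier := {G | ∀ (c : κ → ℂ) (φ : ℂ → Mat (n + 1)), c j0 = 1 → Sol (Ep F σ c) univ φ →
    ∀ z, φ z i i ≠ 0 → eval (pr i φ z) G = 0}
  add_mem' := fun {G H} hG hH c φ hc hφ z hi => by
    rw [map_add, hG c φ hc hφ z hi, hH c φ hc hφ z hi, add_zero]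
  zero_mem' := fun c φ hc hφ z hi => map_zero _
  smul_mem' := fun r G hG c φ hc hφ z hi => by
    rw [smul_eq_mul, map_mul, hG c φ hc hφ z hi, mul_zero]

theorem mem_RA {i : Fin (n + 1)} {G : Rn (n + 1)} : G ∈ RA F σ j0 i ↔
    ∀ (c : κ → ℂ) (φ : ℂ → Mat (n + 1)), c j0 = 1 → Sol (Ep F σ c) univ φ →
      ∀ z, φ z i i ≠ 0 → eval (pr i φ z) G = 0 := Iff.rfl

theorem iz_le {i : Fin (n + 1)} {G : Rn (n + 1)}
    (hG : G ∈ Iz (Ep F (fun _ : Unit => σ j0) (fun _ => 1) i)) : G ∈ RA F σ j0 i :=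
  fun _ _ hc hφ z hi => hG _ ((sol_one hc hφ).2 z (mem_univ z) i hi)

variable {i : Fin (n + 1)} {D : Dr (Fin (n + 1) ⊕ Fin (n + 1))}

theorem ra_der (hD : ∀ (c : κ → ℂ) (U : Set ℂ) (φ : ℂ → Mat (n + 1)), c j0 = 1 → IsOpen U →
      Sol (Ep F σ c) U φ → ∀ z ∈ U, φ z i i ≠ 0 → SolAt D (pr i φ) z)
    {c : κ → ℂ} {φ : ℂ → Mat (n + 1)} (hc : c j0 = 1) (hφ : Sol (Ep F σ c) univ φ) {z : ℂ}
    (hi : φ z i i ≠ 0) (G : Rn (n + 1)) :
    HasDerivAt (fun w => eval (pr i φ w) G) (eval (pr i φ z) (D G)) z :=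
  hasDerivAt_eval D (fun l => (hD c univ φ hc isOpen_univ hφ z (mem_univ z) hi).self_of_nhds l) G

theorem ra_stable (hD : ∀ (c : κ → ℂ) (U : Set ℂ) (φ : ℂ → Mat (n + 1)), c j0 = 1 → IsOpen U →
      Sol (Ep F σ c) U φ → ∀ z ∈ U, φ z i i ≠ 0 → SolAt D (pr i φ) z)
    {G : Rn (n + 1)} (hG : G ∈ RA F σ j0 i) : D G ∈ RA F σ j0 i := by
  intro c φ hc hφ z hi
  have h1 := ra_der hD hc hφ hi G
  have h2 : (fun w => eval (pr i φ w) G) =ᶠ[𝓝 z] fun _ => 0 := by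
    filter_upwards [ev_diag hφ.1 (mem_univ z) hi] with w hw
    exact hG c φ hc hφ w hw
  rw [← h1.deriv, h2.deriv_eq, deriv_const]

theorem ra_rep (hD : ∀ (c : κ → ℂ) (U : Set ℂ) (φ : ℂ → Mat (n + 1)), c j0 = 1 → IsOpen U →
      Sol (Ep F σ c) U φ → ∀ z ∈ U, φ z i i ≠ 0 → SolAt D (pr i φ) z)
    {j : κ} {P : Rn (n + 1)} {H : MvPolynomial (Fin (n + 1)) ℂ}
    (hrep : ∀ x' ∈ Cone F, eval x' H ≠ 0 → ∀ v, Tan F x' v →
      σ j x' v = eval (Sum.elim x' v) P / eval x' H) :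
    rename Sum.inl H * (D P * rename Sum.inl H - P * D (rename Sum.inl H)) ∈ RA F σ j0 i := by
  intro c φ hc hφ z hi
  rw [map_mul, map_sub, map_mul, map_mul]
  by_cases h0 : eval (pr i φ z) (rename Sum.inl H) = 0
  · rw [h0, zero_mul]
  · have hev : (fun w => eval (pr i φ w) P) =ᶠ[𝓝 z] fun w =>
        c j * eval (pr i φ w) (rename Sum.inl H) := by
      filter_upwards [ev_diag hφ.1 (mem_univ z) hi,
        (ra_der hD hc hφ hi (rename Sum.inl H)).continuousAt.eventually_ne h0] with w hw hw'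
      have h1 := hφ.2 w (mem_univ w) i hw
      rw [eval_inl] at hw' ⊢
      have h2 := hrep _ (Tg.cone h1.1) hw' _ h1.1.2.2.2
      rw [Sum.elim_comp_inl_inr] at h2
      have h3 := h1.2 j
      unfold sg at h3
      rw [h3] at h2
      rw [h2, div_mul_cancel₀ _ hw']
    have h1 := (ra_der hD hc hφ hi P).unique
      (((ra_der hD hc hφ hi (rename Sum.inl H)).const_mul (c j)).congr_of_eventuallyEq hev)
    have h2 : eval (pr i φ z) P = c j * eval (pr i φ z) (rename Sum.inl H) := hev.self_of_nhds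
    rw [h1, h2]
    ring

/-- the curve through a point -/
theorem ra_curve [Finite κ] (hF : ∀ i, IsForm (F i)) (hσ : ∀ j, SymForm F (m j) (σ j))
    (hm : ∀ j, 0 < m j) (him : Immersive F σ)
    {a : Fin (n + 1) ⊕ Fin (n + 1) → ℂ} (ha : ∀ G ∈ RA F σ j0 i, eval a G = 0) :
    ∃ (c : κ → ℂ) (φ : ℂ → Mat (n + 1)), c j0 = 1 ∧ Sol (Ep F σ c) univ φ ∧ φ 0 i i ≠ 0 ∧
      pr i φ 0 = a := by
  obtain ⟨D, hD1, hD⟩ := exists_vf1 hσ hm him j0 i
  obtain ⟨ρ, hR⟩ := exists_rad D (B := ‖a‖) (norm_nonneg a)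
  set γ : ℂ → Fin (n + 1) ⊕ Fin (n + 1) → ℂ := fl D a with hγ
  have hγ0 : γ 0 = a := fl_zero D a
  have hmem : ∀ z ∈ ball (0 : ℂ) ρ, ∀ G ∈ RA F σ j0 i, eval (γ z) G = 0 := fun z hz =>
    R.fl_mem' (fun G hG => ra_stable hD hG) hR ha le_rfl (mem_ball_zero_iff.1 hz).le
  have hder : ∀ z ∈ ball (0 : ℂ) ρ, ∀ G : Rn (n + 1),
      HasDerivAt (fun w => eval (γ w) G) (eval (γ z) (D G)) z := fun z hz G =>
    hasDerivAt_eval D (fun l => hR.hasDerivAt_fl le_rfl (mem_ball_zero_iff.1 hz) l) G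
  have hE : ∀ z ∈ ball (0 : ℂ) ρ, γ z ∈ Ep F (fun _ : Unit => σ j0) (fun _ => 1) i :=
    fun z hz => mem_Ep_of (m := fun _ => m j0) (fun _ => hσ j0) fun G hG =>
      hmem z hz G (iz_le hG)
  have hTg : ∀ z ∈ ball (0 : ℂ) ρ, γ z ∈ Tg F i := fun z hz => (hE z hz).1
  set x : ℂ → Fin (n + 1) → ℂ := fun z => γ z ∘ Sum.inl with hx
  set v : ℂ → Fin (n + 1) → ℂ := fun z => γ z ∘ Sum.inr with hv
  have hxi : ∀ z ∈ ball (0 : ℂ) ρ, x z i = 1 := fun z hz => (hTg z hz).1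
  have hxC : ∀ z ∈ ball (0 : ℂ) ρ, x z ∈ Cone F := fun z hz => Tg.cone (hTg z hz)
  have hxd : ∀ z ∈ ball (0 : ℂ) ρ, ∀ k, HasDerivAt (fun w => x w k) (v z k) z := by
    intro z hz k
    have h1 := hder z hz (X (Sum.inl k))
    rw [hD1, eval_X] at h1
    have h2 : (fun w => eval (γ w) (X (Sum.inl k))) = fun w => x w k := by
      funext w
      rw [eval_X]
      rfl
    rw [h2] at h1
    exact h1
  have hne : ∀ z ∈ ball (0 : ℂ) ρ, x z ≠ 0 := fun z hz => (mem_cone.1 (hxC z hz)).1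
  set φ : ℂ → Mat (n + 1) := fun z => Phi (x z) with hφ
  have hdiag : ∀ z ∈ ball (0 : ℂ) ρ, φ z i i ≠ 0 := by
    intro z hz
    rw [hφ]
    simp only
    rw [Phi_diag_ne (hne z hz), hxi z hz]
    exact one_ne_zero
  have hch : ∀ z ∈ ball (0 : ℂ) ρ, chart i (φ z) = x z := by
    intro z hz
    have h1 := hxi z hz
    rw [hφ]
    simp only
    rw [chart_Phi (hne z hz) (by rw [h1]; exact one_ne_zero), h1, inv_one, one_smul]
  have hol : HolP (ball 0 ρ) φ := by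
    intro z hz
    refine ⟨ball 0 ρ, x, isOpen_ball, hz, fun w hw => ?_, fun w hw => ⟨hne w hw, rfl⟩⟩
    refine DifferentiableAt.differentiableWithinAt ?_
    exact differentiableAt_pi.2 fun k => (hxd w hw k).differentiableAt
  have hpr : ∀ z ∈ ball (0 : ℂ) ρ, pr i φ z = γ z := by
    intro z hz
    funext l
    rcases l with k | k
    · rw [pr_inl, hch z hz]
      rfl
    · have h1 := hasDerivAt_chart hol hz (hdiag z hz) k
      have h3 : (fun w => pr i φ w (Sum.inl k)) =ᶠ[𝓝 z] fun w => x w k := by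
        filter_upwards [isOpen_ball.mem_nhds hz] with w hw
        rw [pr_inl, hch w hw]
      rw [← h1.deriv, h3.deriv_eq, (hxd z hz k).deriv]
      rfl
  have hT : ∀ z ∈ ball (0 : ℂ) ρ, φ z ∈ TF F := fun z hz => ⟨x z, hxC z hz, rfl⟩
  have h0ρ : (0 : ℂ) ∈ ball (0 : ℂ) ρ := mem_ball_self hR.pos
  -- the symmetric differentials are constant
  have hsd : ∀ j, ∀ z ∈ ball (0 : ℂ) ρ, HasDerivAt (fun w => sg σ j (γ w)) 0 z := by
    intro j z hz
    obtain ⟨P, H, hH, hrep⟩ := sg_rep hσ j (hxC z hz)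
    have h1 := hmem z hz _ (ra_rep hD hrep)
    have hH' : eval (γ z) (rename Sum.inl H) ≠ 0 := by
      rw [eval_inl]
      exact hH
    rw [map_mul, map_sub, map_mul, map_mul] at h1
    have h2 := (mul_eq_zero.1 h1).resolve_left hH'
    have h3 := (hder z hz P).div (hder z hz (rename Sum.inl H)) hH'
    rw [h2, zero_div] at h3
    refine h3.congr_of_eventuallyEq ?_
    filter_upwards [isOpen_ball.mem_nhds hz,
      (hder z hz (rename Sum.inl H)).continuousAt.eventually_ne hH'] with w hw hw'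
    have h4 := hrep _ (hxC w hw) (by
      rw [eval_inl] at hw'
      exact hw') _ (hTg w hw).2.2.2
    rw [Sum.elim_comp_inl_inr] at h4
    change σ j (x w) (γ w ∘ Sum.inr) = eval (γ w) P / eval (γ w) (rename Sum.inl H)
    rw [eval_inl]
    exact h4
  set c : κ → ℂ := fun j => sg σ j (γ 0) with hc
  have hsc : ∀ j, ∀ z ∈ ball (0 : ℂ) ρ, sg σ j (γ z) = c j := by
    intro j z hz
    exact isOpen_ball.is_const_of_deriv_eq_zero (convex_ball (0 : ℂ) ρ).isPreconnected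
      (fun w hw => (hsd j w hw).differentiableAt.differentiableWithinAt)
      (fun w hw => (hsd j w hw).deriv) hz h0ρ
  have hc1 : c j0 = 1 := (hE 0 h0ρ).2 ()
  have hsol : Sol (Ep F σ c) (ball 0 ρ) φ := R.sol_of hF hσ isOpen_ball hol hT fun z hz =>
    ⟨i, hdiag z hz, fun j => by rw [hpr z hz]; exact hsc j z hz⟩
  obtain ⟨ρ', hρ', hloc⟩ := R.loc_ext hF hσ hm him (c := c)
    ⟨j0, by rw [hc1]; exact one_ne_zero⟩
  obtain ⟨φ', hφ', hev⟩ := R.extend hρ' hloc hR.pos hsol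
  refine ⟨c, φ', hc1, hφ', ?_, ?_⟩
  · rw [hev.self_of_nhds]
    exact hdiag 0 h0ρ
  · have h1 : (fun w => chart i (φ' w)) =ᶠ[𝓝 0] fun w => chart i (φ w) := by
      filter_upwards [hev] with w hw
      rw [hw]
    have h2 : pr i φ' 0 = pr i φ 0 := by
      funext l
      rcases l with k | k
      · rw [pr_inl, pr_inl, hev.self_of_nhds]
      · rw [pr_inr, pr_inr, h1.deriv_eq]
    rw [h2, hpr 0 h0ρ, hγ0]

end cls

end Run7.h418.U
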