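import Pool.Agent.N155.Clo

/-!
Homogenisation, and homomorphisms of function fields.
-/

set_option autoImplicit false

open MvPolynomial

namespace Run7.h418.U

open Pool.Agent.W602.GT Pool.Agent.N155

section hmg

variable {n : ℕ}

/-- the homogenisation -/
noncomputable def hmg (i0 : Fin (n + 1)) (G : MvPolynomial (Fin (n + 1)) ℂ) :
    MvPolynomial (Fin (n + 1)) ℂ :=
  ∑ s ∈ G.support, monomial (s + Finsupp.single i0 (G.totalDegree - s.degree)) (G.coeff s)

theorem isForm_hmg (i0 : Fin (n + 1)) (G : MvPolynomial (Fin (n + 1)) ℂ) : IsForm (hmg i0 G) := by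
  refine ⟨G.totalDegree, ?_⟩
  unfold hmg
  refine IsHomogeneous.sum _ _ _ fun s hs => ?_
  refine isHomogeneous_monomial _ ?_
  have h1 : s.degree ≤ G.totalDegree := by
    have := le_totalDegree hs
    exact this
  rw [map_add, Finsupp.degree_single]
  omega

theorem aeval_hmg {A : Type} [CommRing A] [Algebra ℂ A] {a : Fin (n + 1) → A} {i0 : Fin (n + 1)}
    (ha : a i0 = 1) (G : MvPolynomial (Fin (n + 1)) ℂ) : aeval a (hmg i0 G) = aeval a G := by
  unfold hmg
  conv_rhs => rw [← support_sum_monomial_coeff G]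
  rw [map_sum, map_sum]
  refine Finset.sum_congr rfl fun s _ => ?_
  rw [aeval_monomial, aeval_monomial]
  congr 1
  have e1 : ∀ k : ℕ, (Finsupp.single i0 k).prod (fun i k => a i ^ k) = 1 := by
    intro k
    rw [Finsupp.prod_single_index (h := fun i k => a i ^ k) (pow_zero _), ha, one_pow]
  have e2 := Finsupp.prod_add_index' (f := s) (g := Finsupp.single i0
    (G.totalDegree - s.degree)) (h := fun i k => a i ^ k) (fun _ => pow_zero _)
    (fun _ _ _ => pow_add _ _ _)
  rw [e1, mul_one] at e2
  exact e2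

theorem eval_hmg {a : Fin (n + 1) → ℂ} {i0 : Fin (n + 1)}
    (ha : a i0 = 1) (G : MvPolynomial (Fin (n + 1)) ℂ) : eval a (hmg i0 G) = eval a G := by
  have h1 := aeval_hmg ha G
  have h2 : ∀ H : MvPolynomial (Fin (n + 1)) ℂ, aeval a H = eval a H := fun H =>
    congrArg (fun f : MvPolynomial (Fin (n + 1)) ℂ →ₐ[ℂ] ℂ => f H) rfl
  rw [h2, h2] at h1
  exact h1

end hmg

section hom

/-- homomorphisms of fields of fractions -/
theorem exists_hom {A K L : Type} [CommRing A] [Field K] [Field L] (f : A →+* K) (g : A →+* L)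
    (hker : ∀ a, f a = 0 ↔ g a = 0) (hfrac : ∀ r : K, ∃ a b, r = f a / f b) :
    ∃ ι : K →+* L, ∀ a, ι (f a) = g a := by
  let B := A ⧸ RingHom.ker f
  let f' : B →+* K := Ideal.Quotient.lift _ f fun a ha => ha
  let g' : B →+* L := Ideal.Quotient.lift _ g fun a ha => (hker a).1 ha
  letI : Algebra B K := f'.toAlgebra
  have hf' : Function.Injective f' := by
    rw [injective_iff_map_eq_zero]
    intro b hb
    obtain ⟨a, rfl⟩ := Ideal.Quotient.mk_surjective b
    have h1 : f a = 0 := hb
    exact Ideal.Quotient.eq_zero_iff_mem.2 h1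
  have hg' : Function.Injective g' := by
    rw [injective_iff_map_eq_zero]
    intro b hb
    obtain ⟨a, rfl⟩ := Ideal.Quotient.mk_surjective b
    have h1 : g a = 0 := hb
    exact Ideal.Quotient.eq_zero_iff_mem.2 ((hker a).2 h1)
  have : FaithfulSMul B K := (faithfulSMul_iff_algebraMap_injective B K).2 hf'
  have : IsFractionRing B K := IsFractionRing.of_field (R := B) (K := K) fun r => by
    obtain ⟨a, b, h⟩ := hfrac r
    exact ⟨Ideal.Quotient.mk _ a, Ideal.Quotient.mk _ b, h⟩
  have : IsDomain B := (IsFractionRing.injective B K).isDomain (algebraMap B K)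
  refine ⟨IsFractionRing.lift hg', fun a => ?_⟩
  have h1 := IsFractionRing.lift_algebraMap hg' (K := K) (Ideal.Quotient.mk (RingHom.ker f) a)
  exact h1

/-- the function field as a field of fractions -/
theorem frac_of_coords {n : ℕ} {K : Type} [Field K] [Algebra ℂ K] {y1 : Fin (n + 1) → K}
    (hcy : coords ℂ y1 = ⊤) (r : K) :
    ∃ A B : MvPolynomial (Fin (n + 1)) ℂ, r = aeval y1 A / aeval y1 B := by
  obtain ⟨F⟩ := exists_frac hcy r
  exact ⟨_, _, F.eq⟩

end hom

end Run7.h418.U
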