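import Pool.Agent.Run7.h418.U.Cls
import Pool.Agent.Run7.h418.U.Hmg
import Pool.Agent.Run7.h418.Z.Thm

/-!
A Zariski dense set of entire curves gives a prime ideal of jets of entire curves which dominates
the variety.
-/

set_option autoImplicit false

open MvPolynomial Metric Set Filter Topology LinearAlgebra.Projectivization

namespace Run7.h418.U

open Pool.Agent.Y190.OP Pool.Agent.W602.GT Pool.Agent.N155

section scale

variable {n : ℕ} {ι κ : Type} {F : ι → MvPolynomial (Fin (n + 1)) ℂ}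
  {σ : κ → (Fin (n + 1) → ℂ) → (Fin (n + 1) → ℂ) → ℂ} {m : κ → ℕ} {c : κ → ℂ}

theorem holP_scale {φ : ℂ → Mat (n + 1)} (h : HolP univ φ) (a : ℂ) :
    HolP univ fun w => φ (a * w) := by
  intro w _
  obtain ⟨V, G, hV, hwV, hG, hφ⟩ := h (a * w) (mem_univ _)
  refine ⟨(fun w => a * w) ⁻¹' V, fun w => G (a * w), hV.preimage (by fun_prop), hwV, ?_,
    fun x hx => hφ _ hx⟩
  exact hG.comp (by fun_prop) fun x hx => hx

theorem pr_scale (φ : ℂ → Mat (n + 1)) (a z : ℂ) (i : Fin (n + 1)) :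
    pr i (fun w => φ (a * w)) z = Sum.elim (pr i φ (a * z) ∘ Sum.inl)
      (a • (pr i φ (a * z) ∘ Sum.inr)) := by
  funext l
  rcases l with k | k
  · rfl
  · rw [pr_inr]
    have h1 := deriv_comp_mul_left (𝕜 := ℂ) a (fun w => chart i (φ w)) z
    rw [h1]
    rfl

theorem sol_scale (hσ : ∀ j, SymForm F (m j) (σ j)) {φ : ℂ → Mat (n + 1)}
    (h : Sol (Ep F σ c) univ φ) (a : ℂ) :
    Sol (Ep F σ fun j => a ^ m j * c j) univ fun w => φ (a * w) := by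
  refine ⟨holP_scale h.1 a, fun z _ i hi => ?_⟩
  have h1 := h.2 (a * z) (mem_univ _) i hi
  rw [pr_scale]
  refine ⟨⟨h1.1.1, ?_, h1.1.2.2.1, ?_⟩, fun j => ?_⟩
  · change a * pr i φ (a * z) (Sum.inr i) = 0
    rw [h1.1.2.1, mul_zero]
  · exact h1.1.2.2.2.smul a
  · have h2 := (hσ j).deg _ (Tg.cone h1.1) _ h1.1.2.2.2 a
    have h3 := h1.2 j
    unfold sg at h3 ⊢
    rw [Sum.elim_comp_inl, Sum.elim_comp_inr, h2, h3]

end scale

section den

variable {n : ℕ} {ι κ : Type} {σ : κ → (Fin (n + 1) → ℂ) → (Fin (n + 1) → ℂ) → ℂ} {m : κ → ℕ}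
  {K : Type} [Field K] [Algebra ℂ K]

/-- the forms which vanish at `y` -/
def Vf (y : Fin (n + 1) → K) : Type := {G : MvPolynomial (Fin (n + 1)) ℂ // IsForm G ∧ val y G = 0}

/-- the forms which vanish at `y`, as a family -/
def vf (y : Fin (n + 1) → K) : Vf y → MvPolynomial (Fin (n + 1)) ℂ := fun G => G.1

theorem vf_form (y : Fin (n + 1) → K) (i : Vf y) : IsForm (vf y i) := i.2.1

theorem cone_vf {y : Fin (n + 1) → K} {x : Fin (n + 1) → ℂ} : x ∈ Cone (vf y) ↔ x ∈ VarPts ℂ y := by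
  constructor
  · intro h
    have h9 := mem_cone.1 h
    refine ⟨h9.1, fun G hG hG0 => ?_⟩
    rw [val_ev]
    exact h9.2 ⟨G, hG, hG0⟩
  · intro h
    refine mem_cone.2 ⟨h.1, fun i => ?_⟩
    rw [← val_ev]
    exact h.2 _ i.2.1 i.2.2

theorem isForm_prod {J : Type} (s : Finset J) {G : J → MvPolynomial (Fin (n + 1)) ℂ}
    (h : ∀ j, IsForm (G j)) : IsForm (∏ j ∈ s, G j) := by
  choose d hd using h
  exact ⟨_, IsHomogeneous.prod s G d fun j _ => hd j⟩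

theorem isForm_mul {G H : MvPolynomial (Fin (n + 1)) ℂ} (hG : IsForm G) (hH : IsForm H) :
    IsForm (G * H) := by
  obtain ⟨d, hd⟩ := hG
  obtain ⟨e, he⟩ := hH
  exact ⟨d + e, hd.mul he⟩

/-- a dense set of curves in one class -/
theorem exists_class [Finite κ] {y : Fin (n + 1) → K} (hσ : ∀ j, SymForm (vf y) (m j) (σ j))
    (hm : ∀ j, 0 < m j) (him : Immersive (vf y) σ) {i0 : Fin (n + 1)} (hi0 : y i0 = 1)
    (hcon : ∀ G : MvPolynomial (Fin (n + 1)) ℂ, IsForm G → val y G ≠ 0 →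
      ∃ p : ℂ → ℙ ℂ (Fin (n + 1) → ℂ), HolMap p ∧ BoundedDer p ∧
        (∀ z, (p z).rep ∈ VarPts ℂ y) ∧ (∃ z w, p z ≠ p w) ∧ ∃ z, eval (p z).rep G ≠ 0) :
    ∃ j0 : κ, ∀ G : MvPolynomial (Fin (n + 1)) ℂ, aeval y G ≠ 0 →
      rename Sum.inl G ∉ RA (vf y) σ j0 i0 := by
  classical
  by_contra hne
  push Not at hne
  choose Gj hGj hGR using hne
  have := Fintype.ofFinite κ
  set G : MvPolynomial (Fin (n + 1)) ℂ := (∏ j, hmg i0 (Gj j)) * X i0 with hG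
  have hGf : IsForm G := isForm_mul (isForm_prod _ fun j => isForm_hmg i0 (Gj j))
    ⟨1, isHomogeneous_X _ _⟩
  have hG0 : val y G ≠ 0 := by
    change aeval y G ≠ 0
    rw [hG, map_mul, map_prod, aeval_X, hi0, mul_one, Finset.prod_ne_zero_iff]
    intro j _
    rw [aeval_hmg hi0]
    exact hGj j
  obtain ⟨p, hp, hpb, hpV, ⟨z1, z2, hz12⟩, z0, hz0⟩ := hcon G hGf hG0
  rw [hG, map_mul, map_prod, eval_X] at hz0
  have hx0 : (p z0).rep i0 ≠ 0 := right_ne_zero_of_mul hz0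
  have hGz : ∀ j, eval (p z0).rep (hmg i0 (Gj j)) ≠ 0 := fun j =>
    Finset.prod_ne_zero_iff.1 (left_ne_zero_of_mul hz0) j (Finset.mem_univ j)
  have hpC : ∀ z, (p z).rep ∈ Cone (vf y) := fun z => cone_vf.2 (hpV z)
  have hΨ := holP_map hp
  obtain ⟨B, hB⟩ := Z.bounded_fderiv hp hpb
  obtain ⟨c, hc⟩ := liouville (vf_form y) hσ hΨ (fun z => ⟨_, hpC z, rfl⟩) hB
  obtain ⟨j, hj⟩ := const_ne hσ him hc (by
    intro h
    apply hz12
    exact proj_eq ((h z1).trans (h z2).symm))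
  obtain ⟨a, ha⟩ := IsAlgClosed.exists_pow_nat_eq (c j)⁻¹ (hm j)
  have ha0 : a ≠ 0 := by
    rintro rfl
    rw [zero_pow (hm j).ne'] at ha
    exact inv_ne_zero hj ha.symm
  have hs := sol_scale hσ hc a
  have hone : a ^ m j * c j = 1 := by rw [ha, inv_mul_cancel₀ hj]
  have hz : a * (a⁻¹ * z0) = z0 := mul_inv_cancel_left₀ ha0 z0
  have hd : Phi (p (a * (a⁻¹ * z0))).rep i0 i0 ≠ 0 := by
    rw [hz, Phi_diag_ne (p z0).rep_nonzero]
    exact hx0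
  have h1 := hGR j _ _ hone hs (a⁻¹ * z0) hd
  rw [eval_inl, pr_scale (fun w => Phi (p w).rep) a (a⁻¹ * z0) i0, Sum.elim_comp_inl] at h1
  have h2 : pr i0 (fun w => Phi (p w).rep) (a * (a⁻¹ * z0)) ∘ Sum.inl =
      ((p z0).rep i0)⁻¹ • (p z0).rep := by
    rw [hz]
    funext k
    change chart i0 (Phi (p z0).rep) k = _
    rw [chart_Phi (p z0).rep_nonzero hx0]
  rw [h2, ← eval_hmg (i0 := i0) (by
    rw [Pi.smul_apply, smul_eq_mul, inv_mul_cancel₀ hx0])] at h1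
  obtain ⟨e, he⟩ := isForm_hmg i0 (Gj j)
  rw [eval_hom he] at h1
  exact mul_ne_zero (pow_ne_zero _ (inv_ne_zero hx0)) (hGz j) h1

theorem inl_mem {y : Fin (n + 1) → K} {i0 : Fin (n + 1)} (hi0 : y i0 = 1) {j0 : κ}
    {G : MvPolynomial (Fin (n + 1)) ℂ} (hG : aeval y G = 0) :
    rename Sum.inl G ∈ RA (vf y) σ j0 i0 := by
  intro c φ _ hφ z hi
  have h1 := (hφ.2 z (mem_univ z) i0 hi).1
  rw [eval_inl, ← eval_hmg h1.1]
  exact h1.2.2.1 ⟨hmg i0 G, isForm_hmg i0 G, (aeval_hmg hi0 G).trans hG⟩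

/-- the prime ideal -/
theorem exists_prime {y : Fin (n + 1) → K} {i0 : Fin (n + 1)} (hi0 : y i0 = 1) {j0 : κ}
    (h : ∀ G : MvPolynomial (Fin (n + 1)) ℂ, aeval y G ≠ 0 →
      rename Sum.inl G ∉ RA (vf y) σ j0 i0) :
    ∃ 𝔭 : Ideal (Rn (n + 1)), 𝔭.IsPrime ∧ RA (vf y) σ j0 i0 ≤ 𝔭 ∧
      ∀ G : MvPolynomial (Fin (n + 1)) ℂ, rename Sum.inl G ∈ 𝔭 ↔ aeval y G = 0 := by
  let S : Submonoid (Rn (n + 1)) :=
    { carrier := {Q | ∃ G : MvPolynomial (Fin (n + 1)) ℂ, aeval y G ≠ 0 ∧ Q = rename Sum.inl G}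
      mul_mem' := by
        rintro _ _ ⟨G, hG, rfl⟩ ⟨H, hH, rfl⟩
        exact ⟨G * H, by rw [map_mul]; exact mul_ne_zero hG hH, by rw [map_mul]⟩
      one_mem' := ⟨1, by rw [map_one]; exact one_ne_zero, by rw [map_one]⟩ }
  obtain ⟨𝔭, h1, h2, h3⟩ := Ideal.exists_le_prime_disjoint (RA (vf y) σ j0 i0) S (by
    rw [Set.disjoint_left]
    rintro _ hQ ⟨G, hG, rfl⟩
    exact h G hG hQ)
  refine ⟨𝔭, h1, h2, fun G => ⟨fun hG => ?_, fun hG => h2 (inl_mem hi0 hG)⟩⟩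
  by_contra h0
  exact Set.disjoint_left.1 h3 hG ⟨G, h0, rfl⟩

end den

end Run7.h418.U
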