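import Pool.Agent.N145.SX.PullK
import Pool.Agent.Y191.Base

/-!
Rows of matrices, frames of derivations of a tower of fields.
-/

set_option autoImplicit false
set_option linter.overlappingInstances false
set_option linter.unusedSectionVars false

open FF

namespace Run7.h418.U

open Pool.Agent.W602.GT (Divisorial RegAt IsPluri DerReg)

section lin

variable {R : Type} [Field R]

/-- linearly independent vectors can be completed by members of a spanning family -/
theorem exists_extend {V A : Type} [AddCommGroup V] [Module R V] [FiniteDimensional R V] :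
    ∀ (r : ℕ) {ι : Type} [Fintype ι] {u : ι → V} {v : A → V}, LinearIndependent R u →
      Submodule.span R (Set.range v) ⊔ Submodule.span R (Set.range u) = ⊤ →
      r + Fintype.card ι = Module.finrank R V →
      ∃ I : Fin r → A, LinearIndependent R (Sum.elim (v ∘ I) u) := by
  intro r
  induction r with
  | zero =>
    intro ι _ u v hu _ _
    refine ⟨Fin.elim0, ?_⟩
    rw [← linearIndependent_equiv (Equiv.emptySum (Fin 0) ι).symm]
    exact hu
  | succ r ih =>
    intro ι _ u v hu hs hc
    obtain ⟨a, ha⟩ : ∃ a, v a ∉ Submodule.span R (Set.range u) := by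
      by_contra hcon
      push Not at hcon
      have h1 : Submodule.span R (Set.range v) ≤ Submodule.span R (Set.range u) := by
        rw [Submodule.span_le]
        rintro _ ⟨a, rfl⟩
        exact hcon a
      rw [sup_eq_right.2 h1] at hs
      have h2 := finrank_span_eq_card hu
      rw [hs, finrank_top] at h2
      omega
    set u' : Option ι → V := fun o => Option.casesOn' o (v a) u with hu'
    have h1 : LinearIndependent R u' := hu.option ha
    obtain ⟨I, hI⟩ := ih (u := u') (v := v) h1 (by
      rw [eq_top_iff, ← hs]
      refine sup_le_sup le_rfl (Submodule.span_mono ?_)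
      rintro _ ⟨i, rfl⟩
      exact ⟨some i, rfl⟩) (by
      rw [Fintype.card_option]
      omega)
    refine ⟨Fin.cons a I, ?_⟩
    set f : Fin (r + 1) ⊕ ι → Fin r ⊕ Option ι := Sum.elim
      (Fin.cases (Sum.inr none) Sum.inl) (fun i => Sum.inr (some i)) with hf
    have hfi : Function.Injective f := by
      rintro (i | i) (j | j) hij
      · refine Fin.cases ?_ (fun i' => ?_) i (motive := fun i => f (Sum.inl i) = f (Sum.inl j) →
          (Sum.inl i : Fin (r + 1) ⊕ ι) = Sum.inl j) hij
        · refine Fin.cases ?_ (fun j' => ?_) j (motive := fun j => f (Sum.inl 0) = f (Sum.inl j) →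
            (Sum.inl 0 : Fin (r + 1) ⊕ ι) = Sum.inl j)
          · intro _
            rfl
          · intro h
            simp [hf] at h
        · refine Fin.cases ?_ (fun j' => ?_) j (motive := fun j =>
            f (Sum.inl i'.succ) = f (Sum.inl j) →
            (Sum.inl i'.succ : Fin (r + 1) ⊕ ι) = Sum.inl j)
          · intro h
            simp [hf] at h
          · intro h
            simp only [hf, Sum.elim_inl, Fin.cases_succ, Sum.inl.injEq] at h
            rw [h]
      · refine Fin.cases ?_ (fun i' => ?_) i (motive := fun i => f (Sum.inl i) = f (Sum.inr j) →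
          (Sum.inl i : Fin (r + 1) ⊕ ι) = Sum.inr j) hij
        · intro h
          simp [hf] at h
        · intro h
          simp [hf] at h
      · refine Fin.cases ?_ (fun j' => ?_) j (motive := fun j => f (Sum.inr i) = f (Sum.inl j) →
          (Sum.inr i : Fin (r + 1) ⊕ ι) = Sum.inl j) hij
        · intro h
          simp [hf] at h
        · intro h
          simp [hf] at h
      · simp only [hf, Sum.elim_inr, Sum.inr.injEq, Option.some.injEq] at hij
        rw [hij]
    have h2 : Sum.elim (v ∘ (Fin.cons a I : Fin (r + 1) → A)) u =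
        (Sum.elim (v ∘ I) u') ∘ f := by
      funext i
      rcases i with i | i
      · refine Fin.cases ?_ (fun i' => ?_) i
        · simp [hf, hu']
        · simp [hf]
      · simp [hf, hu']
    rw [h2]
    exact hI.comp f hfi

end lin

section der

variable {K Λ R : Type} [Field K] [Field Λ] [Field R] [Algebra ℂ K] [Algebra ℂ Λ] [Algebra ℂ R]
  [Algebra Λ R] [Algebra K R] [IsScalarTower ℂ Λ R] [IsScalarTower ℂ K R]

/-- sums of derivations -/
theorem sum_app {k A M ι : Type} [CommRing k] [CommRing A] [AddCommGroup M] [Algebra k A]
    [Module k M] [Module A M] (s : Finset ι) (g : ι → Derivation k A M) (f : A) :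
    (∑ c ∈ s, g c) f = ∑ c ∈ s, g c f := by
  classical
  induction s using Finset.induction_on with
  | empty => rfl
  | insert a s ha ih =>
    rw [Finset.sum_insert ha, Finset.sum_insert ha, ← ih]
    rfl

/-- a derivation of the small field extends, with the value zero on a transcendence basis -/
theorem ext_der {N : ℕ} {b : Fin N → Λ} (hb : IsTranscendenceBasis ℂ b)
    {B : Fin N → Derivation ℂ Λ Λ} (hB : ∀ i j, B i (b j) = if i = j then 1 else 0) {ι : Type}
    {x : ι → R} (hx : IsTranscendenceBasis Λ x) (i : Fin N) :
    ∃ D : Derivation ℂ R R, (∀ c : Λ, D (algebraMap Λ R c) = algebraMap Λ R (B i c)) ∧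
      ∀ j, D (x j) = 0 := by
  have hbx := hb.sumElim_comp hx
  obtain ⟨D, hD⟩ := Pool.Agent.W602.GT.exists_der _ hbx (Sum.elim (fun _ => 0)
    fun j => if i = j then 1 else 0)
  refine ⟨D, fun c => ?_, fun j => hD (Sum.inl j)⟩
  rw [Pool.Agent.W73.PG.PULL.chain b hb B hB D c]
  have h1 : ∀ c', D (algebraMap Λ R (b c')) = if i = c' then 1 else 0 := fun c' => hD (Sum.inr c')
  simp only [h1, ite_mul, one_mul, zero_mul, Finset.sum_ite_eq, Finset.mem_univ, if_true]

/-- expansions of derivations -/
theorem expand' {k ι : Type} [Field k] [CharZero k] [Algebra k R] [Fintype ι] [DecidableEq ι]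
    {y : ι → R} (hy : IsTranscendenceBasis k y) {E : ι → Derivation k R R}
    (hE : ∀ i j, E i (y j) = if i = j then 1 else 0) (D : Derivation k R R) :
    ∑ b, D (y b) • E b = D := by
  have h1 := Pool.Agent.W619.TW.der_zero ((∑ b, D (y b) • E b) - D) y hy (fun i => by
    change (∑ b, D (y b) • E b) (y i) - D (y i) = 0
    rw [sum_app]
    change ∑ b, D (y b) * E b (y i) - D (y i) = 0
    simp only [hE, mul_ite, mul_one, mul_zero, Finset.sum_ite_eq', Finset.mem_univ, if_true,
      sub_self])
  ext f
  exact sub_eq_zero.1 (h1 f)

/-- a derivation over `Λ` which vanishes on `K` is zero if `Λ` and `K` generate the field -/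
theorem der_gen (hgen : IntermediateField.adjoin Λ (Set.range (algebraMap K R)) = ⊤)
    (D : Derivation Λ R R) (h : ∀ f : K, D (algebraMap K R f) = 0) : D = 0 := by
  let C : IntermediateField Λ R :=
    { carrier := {f | D f = 0}
      mul_mem' := fun {a b} ha hb => by
        change D (a * b) = 0
        rw [D.leibniz, show D a = 0 from ha, show D b = 0 from hb, smul_zero, smul_zero, add_zero]
      one_mem' := D.map_one_eq_zero
      add_mem' := fun {a b} ha hb => by
        change D (a + b) = 0
        rw [map_add, show D a = 0 from ha, show D b = 0 from hb, add_zero]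
      zero_mem' := map_zero D
      algebraMap_mem' := fun r => D.map_algebraMap r
      inv_mem' := fun a ha => by
        change D a⁻¹ = 0
        rw [Derivation.leibniz_inv, show D a = 0 from ha, smul_zero] }
  have h1 : IntermediateField.adjoin Λ (Set.range (algebraMap K R)) ≤ C := by
    rw [IntermediateField.adjoin_le_iff]
    rintro _ ⟨f, rfl⟩
    exact h f
  rw [hgen] at h1
  ext f
  exact h1 (show f ∈ (⊤ : IntermediateField Λ R) from trivial)

/-- the rows of the frame, restricted to `K` -/
theorem exists_rows (hgen : IntermediateField.adjoin Λ (Set.range (algebraMap K R)) = ⊤)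
    {w N e r : ℕ} (hr : r + e = w) {z : Fin w → K} (hz : IsTranscendenceBasis ℂ z)
    {b : Fin N → Λ} (hb : IsTranscendenceBasis ℂ b) {x : Fin e → R}
    (hx : IsTranscendenceBasis Λ x) {T : Fin N → Derivation ℂ R R}
    (hTb : ∀ i j, T i (algebraMap Λ R (b j)) = if i = j then 1 else 0)
    (hTx : ∀ i j, T i (x j) = 0) {δ : Fin e → Derivation Λ R R}
    (hδ : ∀ i j, δ i (x j) = if i = j then 1 else 0) :
    ∃ I : Fin r → Fin N, LinearIndependent R (Sum.elim
      ((fun (i : Fin N) (l : Fin w) => T i (algebraMap K R (z l))) ∘ I)
      fun (i : Fin e) (l : Fin w) => δ i (algebraMap K R (z l))) := by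
  classical
  have hkey : ∀ D : Derivation ℂ R R, (∀ l, D (algebraMap K R (z l)) = 0) →
      ∀ f : K, D (algebraMap K R f) = 0 := fun D hD f =>
    Pool.Agent.W619.TW.der_zero (D.compAlgebraMap K) z hz hD f
  refine exists_extend r ?_ ?_ (by rw [Fintype.card_fin, Module.finrank_fin_fun]; exact hr)
  · rw [Fintype.linearIndependent_iff]
    intro g hg i
    set D : Derivation Λ R R := ∑ j, g j • δ j with hD
    have hDf : ∀ f, D f = ∑ j, g j * δ j f := by
      intro f
      rw [hD, sum_app]
      rfl
    have h1 : D = 0 := by
      refine der_gen hgen D fun f => ?_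
      refine hkey (D.restrictScalars ℂ) (fun l => ?_) f
      change D _ = 0
      rw [hDf]
      have h2 := congrFun hg l
      rw [Finset.sum_apply] at h2
      exact h2
    have h2 : D (x i) = g i := by
      rw [hDf]
      simp only [hδ, mul_ite, mul_one, mul_zero, Finset.sum_ite_eq', Finset.mem_univ, if_true]
    rw [← h2, h1]
    rfl
  · by_contra hne
    obtain ⟨f, hf0, hf⟩ := Submodule.exists_le_ker_of_lt_top _ (lt_top_iff_ne_top.2 hne)
    set t : Fin w → R := fun l => f (Pi.single l 1) with ht
    have hfv : ∀ v, f v = ∑ l, v l * t l := by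
      intro v
      conv_lhs => rw [← Finset.univ_sum_single v]
      rw [map_sum]
      refine Finset.sum_congr rfl fun k _ => ?_
      have : Pi.single k (v k) = v k • (Pi.single k 1 : Fin w → R) := by
        rw [← Pi.single_smul, smul_eq_mul, mul_one]
      rw [this, map_smul, smul_eq_mul]
    have hT : ∀ i, ∑ l, T i (algebraMap K R (z l)) * t l = 0 := by
      intro i
      have h1 : (fun l => T i (algebraMap K R (z l))) ∈ LinearMap.ker f :=
        hf (Submodule.mem_sup_left (Submodule.subset_span ⟨i, rfl⟩))
      rw [LinearMap.mem_ker, hfv] at h1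
      exact h1
    have hδ0 : ∀ i, ∑ l, δ i (algebraMap K R (z l)) * t l = 0 := by
      intro i
      have h1 : (fun l => δ i (algebraMap K R (z l))) ∈ LinearMap.ker f :=
        hf (Submodule.mem_sup_right (Submodule.subset_span ⟨i, rfl⟩))
      rw [LinearMap.mem_ker, hfv] at h1
      exact h1
    have hbx := hb.sumElim_comp hx
    have hall : ∀ D : Derivation ℂ R R, ∑ l, D (algebraMap K R (z l)) * t l = 0 := by
      intro D
      have h1 := expand' (k := ℂ) hbx (E := Sum.elim (fun i => (δ i).restrictScalars ℂ) T) (by
        rintro (i | i) (j | j)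
        · change δ i (x j) = _
          rw [hδ]
          simp
        · change δ i (algebraMap Λ R (b j)) = _
          rw [Derivation.map_algebraMap]
          simp
        · change T i (x j) = _
          rw [hTx]
          simp
        · change T i (algebraMap Λ R (b j)) = _
          rw [hTb]
          simp) D
      have h2 : ∀ f, D f = ∑ i, D (x i) * δ i f + ∑ i, D (algebraMap Λ R (b i)) * T i f := by
        intro f
        have h3 := congrArg (fun d : Derivation ℂ R R => d f) h1
        simp only [Fintype.sum_sum_type, Derivation.add_apply, sum_app] at h3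
        exact h3.symm
      simp only [h2 (algebraMap K R _), add_mul, Finset.sum_mul, Finset.sum_add_distrib]
      have e1 : ∑ l, ∑ i, D (x i) * δ i (algebraMap K R (z l)) * t l = 0 := by
        rw [Finset.sum_comm]
        simp only [mul_assoc, ← Finset.mul_sum, hδ0, mul_zero, Finset.sum_const_zero]
      have e2 : ∑ l, ∑ i, D (algebraMap Λ R (b i)) * T i (algebraMap K R (z l)) * t l = 0 := by
        rw [Finset.sum_comm]
        simp only [mul_assoc, ← Finset.mul_sum, hT, mul_zero, Finset.sum_const_zero]
      rw [e1, e2, add_zero]
    have hz' : AlgebraicIndependent ℂ fun l => algebraMap K R (z l) :=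
      hz.1.map' (f := IsScalarTower.toAlgHom ℂ K R) (algebraMap K R).injective
    obtain ⟨G, hG⟩ := Pool.Agent.Y191.exists_dual hz'
    apply hf0
    refine LinearMap.ext fun v => ?_
    rw [hfv, LinearMap.zero_apply]
    refine Finset.sum_eq_zero fun l _ => ?_
    have h1 := hall (G l)
    simp only [hG, ite_mul, one_mul, zero_mul, Finset.sum_ite_eq, Finset.mem_univ, if_true] at h1
    rw [h1, mul_zero]

end der

end Run7.h418.U
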