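import Pool.Agent.Run7.h418.U.Lin

/-!
Contractions of pluricanonical forms are regular at the places over the big field of constants.
-/

set_option autoImplicit false
set_option linter.overlappingInstances false
set_option linter.unusedSectionVars false
set_option maxHeartbeats 4000000
set_option synthInstance.maxHeartbeats 400000

open FF

namespace Run7.h418.U

open Pool.Agent.W603.LV Pool.Agent.W619.PQ
open Pool.Agent.W602.GT (Divisorial RegAt IsPluri DerReg)
open Pool.Agent.N281.SX (rcP)
open Pool.Agent.N131.MV (Ri der_regular)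

section dv

variable {Λ R : Type} [Field Λ] [Field R] [Algebra ℂ Λ] [Algebra ℂ R] [Algebra Λ R]
  [IsScalarTower ℂ Λ R]

/-- a divisorial place over `Λ` is a divisorial place over `ℂ` -/
theorem div_up {N : ℕ} {b : Fin N → Λ} (hb : AlgebraicIndependent ℂ b) {m : ℕ} {Q : Place Λ R}
    {u : Fin m → R} (hu : Ri Q u) : Divisorial (m + N + 1) (rcP Q) := by
  have hX : AlgebraicIndependent Λ (MvPolynomial.X : Fin m → MvPolynomial (Fin m) Λ) :=
    MvPolynomial.algebraicIndependent_X _ _
  have hbX := hb.sumElim_comp hX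
  change ∃ v : Fin (m + N) → R, _
  refine ⟨fun i => Sum.elim u (algebraMap Λ R ∘ b) (finSumFinEquiv.symm i), fun F hF => ?_⟩
  set F' : MvPolynomial (Fin m ⊕ Fin N) ℂ := MvPolynomial.rename finSumFinEquiv.symm F with hF'
  have hF'0 : F' ≠ 0 := by
    intro h
    apply hF
    exact (map_eq_zero_iff _ (MvPolynomial.rename_injective _
      finSumFinEquiv.symm.injective)).1 h
  set G : MvPolynomial (Fin m) Λ := MvPolynomial.aeval
    (Sum.elim MvPolynomial.X (algebraMap Λ (MvPolynomial (Fin m) Λ) ∘ b)) F' with hG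
  have hG0 : G ≠ 0 := by
    intro h
    exact hF'0 ((algebraicIndependent_iff.1 hbX) F' h)
  have h1 : MvPolynomial.aeval u G =
      MvPolynomial.aeval (fun i => Sum.elim u (algebraMap Λ R ∘ b) (finSumFinEquiv.symm i)) F := by
    have h2 : MvPolynomial.aeval (Sum.elim u (algebraMap Λ R ∘ b)) F' =
        MvPolynomial.aeval (fun i => Sum.elim u (algebraMap Λ R ∘ b)
          (finSumFinEquiv.symm i)) F := by
      rw [hF', MvPolynomial.aeval_rename]
      rfl
    rw [← h2, hG]
    have h3 := MvPolynomial.comp_aeval_apply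
      (Sum.elim MvPolynomial.X (algebraMap Λ (MvPolynomial (Fin m) Λ) ∘ b))
      ((MvPolynomial.aeval u : MvPolynomial (Fin m) Λ →ₐ[Λ] R).restrictScalars ℂ) F'
    refine Eq.trans h3 ?_
    congr 2
    funext i
    rcases i with i | i
    · change MvPolynomial.aeval u (MvPolynomial.X i : MvPolynomial (Fin m) Λ) = u i
      rw [MvPolynomial.aeval_X]
    · change MvPolynomial.aeval u (MvPolynomial.C (b i) : MvPolynomial (Fin m) Λ) = _
      rw [MvPolynomial.aeval_C]
      rfl
  rw [← h1]
  exact hu G hG0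

end dv

section reg

variable {K Λ R : Type} [Field K] [Field Λ] [Field R] [Algebra ℂ K] [Algebra ℂ Λ] [Algebra ℂ R]
  [Algebra Λ R] [Algebra K R] [IsScalarTower ℂ Λ R] [IsScalarTower ℂ K R]

/-- the matrix of the values of derivations -/
noncomputable def vm {α β k : Type} [Field k] [Algebra k R] (z : β → K)
    (D : α → Derivation k R R) : Matrix α β R :=
  Matrix.of fun a l => D a (algebraMap K R (z l))

/-- the rows -/
noncomputable def rws {r e : ℕ} (T : Fin r → Derivation ℂ R R) (δ : Fin e → Derivation Λ R R) :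
    Fin r ⊕ Fin e → Derivation ℂ R R :=
  Sum.elim T fun i => (δ i).restrictScalars ℂ

/-- change of the rows -/
theorem vm_rws {r e : ℕ} {T T' : Fin r → Derivation ℂ R R} {δ δ' : Fin e → Derivation Λ R R}
    {A : Matrix (Fin r) (Fin e) R} {B : Matrix (Fin e) (Fin e) R}
    (hT : ∀ i f, T' i f = T i f + ∑ j, A i j * δ j f)
    (hδ : ∀ i f, δ' i f = ∑ j, B i j * δ j f) (z : Fin r ⊕ Fin e → K) :
    (vm z (rws T' δ')).det = B.det * (vm z (rws T δ)).det := by
  have h1 : vm z (rws T' δ') = Matrix.fromBlocks 1 A 0 B * vm z (rws T δ) := by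
    ext a l
    rw [Matrix.mul_apply, Fintype.sum_sum_type]
    rcases a with a | a
    · simp only [Matrix.fromBlocks_apply₁₁, Matrix.fromBlocks_apply₁₂]
      change T' a (algebraMap K R (z l)) = ∑ i, (1 : Matrix (Fin r) (Fin r) R) a i *
        T i (algebraMap K R (z l)) + ∑ j, A a j * δ j (algebraMap K R (z l))
      rw [hT]
      congr 1
      simp only [Matrix.one_apply, ite_mul, one_mul, zero_mul, Finset.sum_ite_eq,
        Finset.mem_univ, if_true]
    · simp only [Matrix.fromBlocks_apply₂₁, Matrix.fromBlocks_apply₂₂]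
      change δ' a (algebraMap K R (z l)) = ∑ i, (0 : Matrix (Fin e) (Fin r) R) a i *
        T i (algebraMap K R (z l)) + ∑ j, B a j * δ j (algebraMap K R (z l))
      rw [hδ]
      simp
  rw [h1, Matrix.det_mul, Matrix.det_fromBlocks_zero₂₁, Matrix.det_one, one_mul]

/-- **Regularity of contractions.** -/
theorem reg_up [Algebra.EssFiniteType ℂ K] [Algebra.EssFiniteType Λ R] [CharZero Λ]
    {w N m r M : ℕ} (hw : Algebra.trdeg ℂ K = w) (hN : Algebra.trdeg ℂ Λ = N)
    (he : Algebra.trdeg Λ R = (m + 1 : ℕ))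
    {z : Fin w → K} (hz : IsTranscendenceBasis ℂ z)
    {E : Fin w → Derivation ℂ K K} (hE : ∀ i j, E i (z j) = if i = j then 1 else 0)
    {ω : (Fin w → Derivation ℂ K K) → K} (hω : IsPluri M ω)
    (hreg : ∀ P : Place ℂ K, Divisorial w P → RegAt P ω)
    {b : Fin N → Λ} (hb : IsTranscendenceBasis ℂ b)
    {B : Fin N → Derivation ℂ Λ Λ} (hB : ∀ i j, B i (b j) = if i = j then 1 else 0)
    {I : Fin r → Fin N} {T : Fin r → Derivation ℂ R R}
    (hT : ∀ i (c : Λ), T i (algebraMap Λ R c) = algebraMap Λ R (B (I i) c))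
    (eqv : Fin r ⊕ Fin (m + 1) ≃ Fin w) (Q : Place Λ R) (hQ : Divisorial (m + 1) Q)
    {δ' : Fin (m + 1) → Derivation Λ R R} (hδ' : ∀ i, DerReg Q (δ' i)) :
    Q.Reg ((vm (z ∘ eqv) (rws T δ')).det ^ M * algebraMap K R (ω E)) := by
  classical
  obtain ⟨u, hu⟩ := hQ
  change Fin m → R at u
  have hu' : Ri Q u := hu
  obtain ⟨t, ht0, ht⟩ := Q.surj
  set x : Fin (m + 1) → R := fun i => (finSuccEquiv m i).elim t u with hx
  have hxb : IsTranscendenceBasis Λ x := (hu'.basis he ht).comp_equiv (finSuccEquiv m)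
  have hx0 : ∀ i, x i = t ∨ ∃ j, x i = u j := by
    intro i
    rw [hx]
    simp only
    rcases finSuccEquiv m i with - | j
    · exact Or.inl rfl
    · exact Or.inr ⟨j, rfl⟩
  have hxt : ∃ i, x i = t := ⟨(finSuccEquiv m).symm none, by simp [hx]⟩
  have hxu : ∀ j, ∃ i, x i = u j := fun j => ⟨(finSuccEquiv m).symm (some j), by simp [hx]⟩
  have hxr : ∀ i, Q.Reg (x i) := by
    intro i
    rcases hx0 i with h | ⟨j, h⟩
    · rw [h]
      exact Or.inr (by rw [ht]; exact zero_le_one)
    · rw [h]
      exact hu'.reg j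
  -- the frame over `Λ`
  have hδQ : ∀ i : Fin (m + 1), ∃ D : Derivation Λ R R, ∀ j, D (x j) = if i = j then 1 else 0 :=
    fun i => Pool.Agent.W602.GT.exists_der x hxb fun j => if i = j then 1 else 0
  choose δQ hδQ using hδQ
  have h01 : ∀ p : Prop, ∀ _ : Decidable p, Q.Reg (if p then (1 : R) else 0) := by
    intro p _
    split_ifs
    · exact Q.reg_one
    · exact Q.reg_zero
  have hδQr : ∀ i, DerReg Q (δQ i) := by
    intro i
    refine der_regular (P := Q) (δ := δQ i) he hu' (fun c => ?_) (fun j => ?_) ht ?_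
    · rw [Derivation.map_algebraMap]
      exact Q.reg_zero
    · obtain ⟨l, hl⟩ := hxu j
      rw [← hl, hδQ]
      exact h01 _ _
    · obtain ⟨l, hl⟩ := hxt
      rw [← hl, hδQ]
      exact h01 _ _
  -- the lifts
  choose D' hD'1 hD'2 using fun i : Fin r => ext_der hb hB hxb (I i)
  have hD'r : ∀ i f, Q.Reg f → Q.Reg (D' i f) := by
    intro i
    refine der_regular (P := Q) (δ := D' i) he hu' (fun c => ?_) (fun j => ?_) ht ?_
    · rw [hD'1]
      exact Q.reg_const _
    · obtain ⟨l, hl⟩ := hxu j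
      rw [← hl, hD'2]
      exact Q.reg_zero
    · obtain ⟨l, hl⟩ := hxt
      rw [← hl, hD'2]
      exact Q.reg_zero
  have hTD : ∀ i f, T i f = D' i f + ∑ j, (Matrix.of fun i j => T i (x j)) i j * δQ j f := by
    intro i f
    have h1 := Pool.Agent.W619.TW.der_zero (k := ℂ) (T i - D' i -
      ∑ j, T i (x j) • (δQ j).restrictScalars ℂ) _ (hb.sumElim_comp hxb) (by
        rintro (j | j)
        · change T i (x j) - D' i (x j) - (∑ l, T i (x l) • (δQ l).restrictScalars ℂ) (x j) = 0
          rw [sum_app, hD'2, sub_zero]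
          change T i (x j) - ∑ l, T i (x l) * δQ l (x j) = 0
          simp only [hδQ, mul_ite, mul_one, mul_zero, Finset.sum_ite_eq', Finset.mem_univ,
            if_true, sub_self]
        · change T i (algebraMap Λ R (b j)) - D' i (algebraMap Λ R (b j)) -
            (∑ l, T i (x l) • (δQ l).restrictScalars ℂ) (algebraMap Λ R (b j)) = 0
          rw [sum_app, hD'1, hT, sub_self, zero_sub, neg_eq_zero]
          change ∑ l, T i (x l) * δQ l (algebraMap Λ R (b j)) = 0
          simp only [Derivation.map_algebraMap, mul_zero, Finset.sum_const_zero]) f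
    change T i f - D' i f - (∑ j, T i (x j) • (δQ j).restrictScalars ℂ) f = 0 at h1
    rw [sum_app] at h1
    change T i f - D' i f - ∑ j, T i (x j) * δQ j f = 0 at h1
    change T i f = D' i f + ∑ j, T i (x j) * δQ j f
    linear_combination h1
  have hδD : ∀ i f, δ' i f = ∑ j, (Matrix.of fun i j => δ' i (x j)) i j * δQ j f := by
    intro i f
    have h1 := congrArg (fun d : Derivation Λ R R => d f) (expand' hxb hδQ (δ' i))
    simp only [sum_app] at h1
    exact h1.symm
  rw [vm_rws hTD hδD, mul_pow, mul_assoc]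
  have hβ : Ge Q 0 (Matrix.of fun i j => δ' i (x j)).det :=
    ge_det Q _ fun i j => hδ' i _ (hxr j)
  have h9 := hβ.pow M
  rw [mul_zero] at h9
  refine Q.reg_mul h9 ?_
  -- the pull-back
  have htr : Algebra.trdeg ℂ R = ((m + N + 1 : ℕ) : Cardinal) := by
    have h1 := trdeg_add_eq ℂ Λ (A := R)
    rw [hN, he] at h1
    rw [← h1]
    push_cast
    ring
  have h10 := Pool.Agent.N145.SX.pull_pluri hw htr hz hE hω hreg (rcP Q) (div_up hb.1 hu')
    (D := fun a => rws D' δQ (eqv.symm a)) (by
      intro a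
      rcases h : eqv.symm a with i | i
      · exact fun f hf => hD'r i f hf
      · exact fun f hf => hδQr i f hf)
  have h11 : (vm (z ∘ eqv) (rws D' δQ)) = (Matrix.of fun i j => rws D' δQ (eqv.symm i)
      (algebraMap K R (z j)) : Matrix (Fin w) (Fin w) R).submatrix eqv eqv := by
    ext a l
    rw [Matrix.submatrix_apply, Matrix.of_apply, Equiv.symm_apply_apply]
    rfl
  rw [h11, Matrix.det_submatrix_equiv_self]
  exact h10

end reg

end Run7.h418.U
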