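import Pool.Agent.Run7.h418.R.Main

/-!
The polynomial vector field of all curves on which the symmetric differentials are constant and one
of them is one.
-/

set_option autoImplicit false

open MvPolynomial Metric Set Filter Topology

namespace Run7.h418.U

open Pool.Agent.Y190.OP Pool.Agent.W602.GT Pool.Agent.N155

section vec

variable {n : ℕ} {ι κ : Type} {F : ι → MvPolynomial (Fin (n + 1)) ℂ}
  {σ : κ → (Fin (n + 1) → ℂ) → (Fin (n + 1) → ℂ) → ℂ} {m : κ → ℕ} {j0 : κ}

theorem ep_one {c : κ → ℂ} (hc : c j0 = 1) (i : Fin (n + 1)) :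
    Ep F σ c i ⊆ Ep F (fun _ : Unit => σ j0) (fun _ => 1) i := fun a ha =>
  ⟨ha.1, fun _ => by
    have h1 := ha.2 j0
    rw [hc] at h1
    exact h1⟩

theorem sol_one {c : κ → ℂ} (hc : c j0 = 1) {U : Set ℂ} {φ : ℂ → Mat (n + 1)}
    (h : Sol (Ep F σ c) U φ) : Sol (Ep F (fun _ : Unit => σ j0) (fun _ => 1)) U φ :=
  ⟨h.1, fun z hz i hi => ep_one hc i (h.2 z hz i hi)⟩

/-- linear relations between the second derivatives -/
def Lr (F : ι → MvPolynomial (Fin (n + 1)) ℂ)
    (σ : κ → (Fin (n + 1) → ℂ) → (Fin (n + 1) → ℂ) → ℂ) (j0 : κ) (i : Fin (n + 1))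
    (θ : Fin (n + 1) → Rn (n + 1)) (q : Rn (n + 1)) : Prop :=
  ∀ (c : κ → ℂ) (U : Set ℂ) (φ : ℂ → Mat (n + 1)), c j0 = 1 → IsOpen U → Sol (Ep F σ c) U φ →
    ∀ z ∈ U, φ z i i ≠ 0 →
      ∑ k, eval (pr i φ z) (θ k) * deriv (fun w => pr i φ w (Sum.inr k)) z = eval (pr i φ z) q

theorem lr_of_iz {i : Fin (n + 1)} {G : Rn (n + 1)}
    (hG : G ∈ Iz (Ep F (fun _ : Unit => σ j0) (fun _ => 1) i)) :
    Lr F σ j0 i (fun k => pderiv (Sum.inr k) G) (-∑ k, pderiv (Sum.inl k) G * X (Sum.inr k)) := by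
  intro c U φ hc hU hφ z hz hi
  exact ode_lin hU (sol_one hc hφ) hz hi hG

/-- the curve derivative of the symmetric differentials is zero -/
theorem lr_of_rep {i : Fin (n + 1)} {j : κ} {P : Rn (n + 1)} {H : MvPolynomial (Fin (n + 1)) ℂ}
    (hrep : ∀ x' ∈ Cone F, eval x' H ≠ 0 → ∀ v, Tan F x' v →
      σ j x' v = eval (Sum.elim x' v) P / eval x' H) :
    Lr F σ j0 i (fun k => rename Sum.inl H * (rename Sum.inl H * pderiv (Sum.inr k) P))
      (rename Sum.inl H * (P * (∑ k, pderiv (Sum.inl k) (rename Sum.inl H) * X (Sum.inr k)) -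
        rename Sum.inl H * ∑ k, pderiv (Sum.inl k) P * X (Sum.inr k))) := by
  intro c U φ hc hU hφ z hz hi
  have hd : ∀ G : Rn (n + 1), HasDerivAt (fun w => eval (pr i φ w) G)
      (∑ k, eval (pr i φ z) (pderiv (Sum.inl k) G) * pr i φ z (Sum.inr k) +
        ∑ k, eval (pr i φ z) (pderiv (Sum.inr k) G) *
          deriv (fun w => pr i φ w (Sum.inr k)) z) z := by
    intro G
    have h1 := hasDerivAt_eval' (γ := fun w => pr i φ w) (γ' := Sum.elim (fun k =>
      pr i φ z (Sum.inr k)) fun k => deriv (fun w => pr i φ w (Sum.inr k)) z) (z := z) (fun l => by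
        rcases l with k | k
        · exact hasDerivAt_chart hφ.1 hz hi k
        · exact (analyticAt_pr hU hφ.1 hz hi (Sum.inr k)).differentiableAt.hasDerivAt) G
    rw [Fintype.sum_sum_type] at h1
    exact h1
  set h := eval (pr i φ z) (rename Sum.inl H) with hh
  by_cases h0 : h = 0
  · simp only [map_mul, ← hh, h0, zero_mul, Finset.sum_const_zero]
  · have hHc : ContinuousAt (fun w => eval (pr i φ w) (rename Sum.inl H)) z :=
      (hd _).continuousAt
    have hev : (fun w => eval (pr i φ w) P) =ᶠ[𝓝 z] fun w =>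
        c j * eval (pr i φ w) (rename Sum.inl H) := by
      filter_upwards [ev_holP hU hz hφ.1 hi, hHc.eventually_ne h0] with w hw hw'
      have h1 := hφ.2 w hw.1 i hw.2
      rw [eval_inl] at hw' ⊢
      have h2 := hrep _ (Tg.cone h1.1) hw' _ h1.1.2.2.2
      rw [Sum.elim_comp_inl_inr] at h2
      have h3 := h1.2 j
      unfold sg at h3
      rw [h3] at h2
      rw [h2, div_mul_cancel₀ _ hw']
    have h1 := (hd P).unique (((hd (rename Sum.inl H)).const_mul (c j)).congr_of_eventuallyEq hev)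
    have h2 : eval (pr i φ z) P = c j * h := hev.self_of_nhds
    simp only [pderiv_inr_inl, map_zero, zero_mul, Finset.sum_const_zero, add_zero] at h1
    simp only [map_mul, map_sub, map_sum, eval_X, ← hh, h2]
    have h3 : ∑ k, h * (h * eval (pr i φ z) (pderiv (Sum.inr k) P)) *
        deriv (fun w => pr i φ w (Sum.inr k)) z = h * (h * ∑ k, eval (pr i φ z)
          (pderiv (Sum.inr k) P) * deriv (fun w => pr i φ w (Sum.inr k)) z) := by
      rw [Finset.mul_sum, Finset.mul_sum]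
      exact Finset.sum_congr rfl fun k _ => by ring
    rw [h3]
    linear_combination h * h * h1

/-- the linear relations determine the second derivatives -/
theorem lr_surj (hσ : ∀ j, SymForm F (m j) (σ j)) (hm : ∀ j, 0 < m j)
    (him : Immersive F σ) {i : Fin (n + 1)} {a : Fin (n + 1) ⊕ Fin (n + 1) → ℂ}
    (ha : a ∈ Ep F (fun _ : Unit => σ j0) (fun _ => 1) i) (v : Fin (n + 1) → ℂ) :
    ∃ θ q, Lr F σ j0 i θ q ∧ ∀ k, eval a (θ k) = v k := by
  set S : Submodule ℂ (Fin (n + 1) → ℂ) :=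
    { carrier := {v | ∃ θ q, Lr F σ j0 i θ q ∧ ∀ k, eval a (θ k) = v k}
      add_mem' := by
        rintro v w ⟨θ, q, h1, h2⟩ ⟨θ', q', h1', h2'⟩
        refine ⟨θ + θ', q + q', fun c U φ hc hU hφ z hz hi => ?_, fun k => by
          rw [Pi.add_apply, map_add, h2, h2']; rfl⟩
        simp only [Pi.add_apply, map_add, add_mul, Finset.sum_add_distrib]
        rw [h1 c U φ hc hU hφ z hz hi, h1' c U φ hc hU hφ z hz hi]
      zero_mem' := ⟨0, 0, fun c U φ hc hU hφ z hz hi => by simp, fun k => by simp⟩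
      smul_mem' := by
        rintro r v ⟨θ, q, h1, h2⟩
        refine ⟨fun k => C r * θ k, C r * q, fun c U φ hc hU hφ z hz hi => ?_, fun k => by
          rw [map_mul, eval_C, h2]; rfl⟩
        simp only [map_mul, eval_C, mul_assoc, ← Finset.mul_sum]
        rw [h1 c U φ hc hU hφ z hz hi] } with hS
  suffices hST : S = ⊤ by
    have : v ∈ S := by rw [hST]; trivial
    exact this
  by_contra hne
  obtain ⟨f, hf0, hf⟩ := Submodule.exists_le_ker_of_lt_top S (lt_top_iff_ne_top.2 hne)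
  set w : Fin (n + 1) → ℂ := fun k => f (Pi.single k 1) with hw
  have hfv : ∀ v, f v = ∑ k, v k * w k := by
    intro v
    conv_lhs => rw [← Finset.univ_sum_single v]
    rw [map_sum]
    refine Finset.sum_congr rfl fun k _ => ?_
    have : Pi.single k (v k) = v k • (Pi.single k 1 : Fin (n + 1) → ℂ) := by
      rw [← Pi.single_smul, smul_eq_mul, mul_one]
    rw [this, map_smul, smul_eq_mul]
  have hw0 : w ≠ 0 := by
    intro h0
    apply hf0
    refine LinearMap.ext fun v => ?_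
    rw [hfv, h0]
    simp
  have hLw : ∀ θ q, Lr F σ j0 i θ q → ∑ k, eval a (θ k) * w k = 0 := by
    intro θ q h
    have h1 : (fun k => eval a (θ k)) ∈ S := ⟨θ, q, h, fun k => rfl⟩
    have h2 := hf h1
    rw [LinearMap.mem_ker, hfv] at h2
    exact h2
  have hTw : Tan F (a ∘ Sum.inl) w := by
    intro j
    have h1 := hLw _ _ (lr_of_iz (F := F) (σ := σ) (j0 := j0) (i := i) (G := tanP F j)
      (fun b hb => by rw [eval_tanP]; exact hb.1.2.2.2 j))
    simp only [pderiv_tanP, eval_inl] at h1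
    exact h1
  have hwi : w i = 0 := by
    have h1 := hLw _ _ (lr_of_iz (F := F) (σ := σ) (j0 := j0) (i := i) (G := X (Sum.inr i))
      (fun b hb => by rw [eval_X, hb.1.2.1]))
    rw [Finset.sum_eq_single i] at h1
    · rwa [pderiv_X_self, map_one, one_mul] at h1
    · intro k _ hk
      rw [pderiv_X_of_ne (by simpa using hk.symm), map_zero, zero_mul]
    · intro h
      exact absurd (Finset.mem_univ i) h
  have hξ : a ∘ Sum.inr ≠ 0 := by
    intro h0
    have h2 : σ j0 (a ∘ Sum.inl) (a ∘ Sum.inr) = 1 := ha.2 ()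
    rw [h0] at h2
    have h1 := (hσ j0).deg _ (Tg.cone ha.1) 0 (by intro j; simp) 0
    rw [smul_zero, zero_pow (hm j0).ne', zero_mul] at h1
    rw [h1] at h2
    exact zero_ne_one h2
  obtain ⟨j, hj⟩ := him _ (Tg.cone ha.1) _ w ha.1.2.2.2 hTw (not_mult (i := i) ha.1.1 ha.1.2.1 hξ)
    (not_mult (i := i) ha.1.1 hwi hw0)
  apply hj
  obtain ⟨P, H, hH, hrep⟩ := sg_rep hσ j (Tg.cone ha.1)
  have h1 : ∑ k, eval a (pderiv (Sum.inr k) P) * w k = 0 := by
    have h2 := hLw _ _ (lr_of_rep (σ := σ) (j0 := j0) (i := i) hrep)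
    simp only [map_mul, eval_inl, mul_assoc] at h2
    rw [← Finset.mul_sum] at h2
    have h3 := (mul_eq_zero.1 h2).resolve_left hH
    rw [← Finset.mul_sum] at h3
    exact (mul_eq_zero.1 h3).resolve_left hH
  have h2 : (fun t : ℂ => σ j (a ∘ Sum.inl) (a ∘ Sum.inr + t • w)) = fun t =>
      eval (Sum.elim (a ∘ Sum.inl) (a ∘ Sum.inr + t • w)) P / eval (a ∘ Sum.inl) H := by
    funext t
    exact hrep _ (Tg.cone ha.1) hH _ (ha.1.2.2.2.add (hTw.smul t))
  rw [h2]
  have h3 := hasDerivAt_eval' (γ := fun t : ℂ => Sum.elim (a ∘ Sum.inl) (a ∘ Sum.inr + t • w))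
    (γ' := Sum.elim 0 w) (z := 0) (fun l => by
      rcases l with k | k
      · exact hasDerivAt_const _ _
      · have := ((hasDerivAt_id (0 : ℂ)).mul_const (w k)).const_add (a (Sum.inr k))
        simpa using this) P
  have h4 : ∑ l, eval (Sum.elim (a ∘ Sum.inl) (a ∘ Sum.inr + (0 : ℂ) • w)) (pderiv l P) *
      (Sum.elim 0 w : Fin (n + 1) ⊕ Fin (n + 1) → ℂ) l = 0 := by
    rw [zero_smul, add_zero, Sum.elim_comp_inl_inr, Fintype.sum_sum_type]
    simp only [Sum.elim_inl, Sum.elim_inr, Pi.zero_apply, mul_zero, Finset.sum_const_zero,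
      zero_add]
    exact h1
  rw [h4] at h3
  have h5 := h3.div_const (eval (a ∘ Sum.inl) H)
  rw [zero_div] at h5
  exact h5.deriv

/-- the second derivatives are polynomials -/
theorem exists_ode1 (hσ : ∀ j, SymForm F (m j) (σ j)) (hm : ∀ j, 0 < m j)
    (him : Immersive F σ) (i k : Fin (n + 1)) :
    ∃ p : Rn (n + 1), ∀ (c : κ → ℂ) (U : Set ℂ) (φ : ℂ → Mat (n + 1)), c j0 = 1 → IsOpen U →
      Sol (Ep F σ c) U φ → ∀ z ∈ U, φ z i i ≠ 0 →
        deriv (fun w => pr i φ w (Sum.inr k)) z = eval (pr i φ z) p := by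
  set 𝔠 : Ideal (Rn (n + 1)) :=
    { carrier := {H | ∃ Q : Rn (n + 1), ∀ (c : κ → ℂ) (U : Set ℂ) (φ : ℂ → Mat (n + 1)),
        c j0 = 1 → IsOpen U → Sol (Ep F σ c) U φ → ∀ z ∈ U, φ z i i ≠ 0 →
          eval (pr i φ z) H * deriv (fun w => pr i φ w (Sum.inr k)) z = eval (pr i φ z) Q}
      add_mem' := by
        rintro G H ⟨Q, hQ⟩ ⟨Q', hQ'⟩
        refine ⟨Q + Q', fun c U φ hc hU hφ z hz hi => ?_⟩
        rw [map_add, map_add, add_mul, hQ c U φ hc hU hφ z hz hi, hQ' c U φ hc hU hφ z hz hi]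
      zero_mem' := ⟨0, fun c U φ hc hU hφ z hz hi => by simp⟩
      smul_mem' := by
        rintro r G ⟨Q, hQ⟩
        refine ⟨r * Q, fun c U φ hc hU hφ z hz hi => ?_⟩
        rw [smul_eq_mul, map_mul, map_mul, mul_assoc, hQ c U φ hc hU hφ z hz hi] } with h𝔠
  suffices hT : 𝔠 = ⊤ by
    have h1 : (1 : Rn (n + 1)) ∈ 𝔠 := by rw [hT]; trivial
    obtain ⟨Q, hQ⟩ := h1
    refine ⟨Q, fun c U φ hc hU hφ z hz hi => ?_⟩
    have := hQ c U φ hc hU hφ z hz hi
    rwa [map_one, one_mul] at this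
  by_contra hne
  obtain ⟨a, ha⟩ := exists_point hne
  have haE : a ∈ Ep F (fun _ : Unit => σ j0) (fun _ => 1) i := by
    refine mem_Ep_of (m := fun _ => m j0) (fun _ => hσ j0) fun G hG => ha G
      ⟨0, fun c U φ hc hU hφ z hz hi => ?_⟩
    rw [hG _ ((sol_one hc hφ).2 z hz i hi), zero_mul, map_zero]
  choose θ q hθ hθa using fun b : Fin (n + 1) => lr_surj hσ hm him haE (Pi.single b 1)
  set A : Matrix (Fin (n + 1)) (Fin (n + 1)) (Rn (n + 1)) := fun b l => θ b l with hA
  have hdet : A.det ∈ 𝔠 := by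
    refine ⟨∑ b, A.adjugate k b * q b, fun c U φ hc hU hφ z hz hi => ?_⟩
    set y : Fin (n + 1) → ℂ := fun l => deriv (fun w => pr i φ w (Sum.inr l)) z with hy
    set e := (eval (pr i φ z)) with he
    have h1 : (e.mapMatrix A).mulVec y = fun b => e (q b) := by
      funext b
      exact hθ b c U φ hc hU hφ z hz hi
    have h2 : (e.mapMatrix A.adjugate).mulVec ((e.mapMatrix A).mulVec y) = e A.det • y := by
      rw [Matrix.mulVec_mulVec, RingHom.map_adjugate, Matrix.adjugate_mul, ← RingHom.map_det,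
        Matrix.smul_mulVec, Matrix.one_mulVec]
    rw [h1] at h2
    have h3 := congrFun h2 k
    rw [Pi.smul_apply, smul_eq_mul] at h3
    rw [← h3, map_sum]
    simp only [map_mul]
    rfl
  have h1 := ha _ hdet
  rw [RingHom.map_det] at h1
  have h2 : (eval a).mapMatrix A = 1 := by
    ext b l
    rw [RingHom.mapMatrix_apply, Matrix.map_apply, hA]
    change eval a (θ b l) = _
    rw [hθa, Matrix.one_apply, Pi.single_apply]
    simp only [eq_comm]
  rw [h2, Matrix.det_one] at h1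
  exact one_ne_zero h1

/-- the vector field -/
theorem exists_vf1 (hσ : ∀ j, SymForm F (m j) (σ j)) (hm : ∀ j, 0 < m j)
    (him : Immersive F σ) (j0 : κ) (i : Fin (n + 1)) :
    ∃ D : Dr (Fin (n + 1) ⊕ Fin (n + 1)), (∀ k, D (X (Sum.inl k)) = X (Sum.inr k)) ∧
      ∀ (c : κ → ℂ) (U : Set ℂ) (φ : ℂ → Mat (n + 1)), c j0 = 1 → IsOpen U →
        Sol (Ep F σ c) U φ → ∀ z ∈ U, φ z i i ≠ 0 → SolAt D (pr i φ) z := by
  choose p hp using exists_ode1 (j0 := j0) hσ hm him i
  refine ⟨mkDerivation ℂ (Sum.elim (fun k => X (Sum.inr k)) p), fun k => by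
    rw [mkDerivation_X]; rfl, fun c U φ hc hU hφ z hz hi => ?_⟩
  filter_upwards [ev_holP hU hz hφ.1 hi] with w hw l
  rw [mkDerivation_X]
  rcases l with k | k
  · rw [Sum.elim_inl, eval_X]
    exact hasDerivAt_chart hφ.1 hw.1 hw.2 k
  · rw [Sum.elim_inr, ← hp k c U φ hc hU hφ w hw.1 hw.2]
    exact (analyticAt_pr hU hφ.1 hw.1 hw.2 (Sum.inr k)).differentiableAt.hasDerivAt

end vec

end Run7.h418.U
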